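import Pool.Agent.Q89.WS.R
set_option autoImplicit false

/-! Pieces of the solution at a fixed time: kernels, and the inequality of Bessel. -/

namespace Pool.Agent.Q263.WR

open MeasureTheory Set Complex Filter Topology
open scoped ENNReal NNReal
open Pool.Agent.Y183.LS (ec ec_norm ec_enorm ec_add ec_cont ec_zero ec_sum dt dt_add dt_comm dt_cont
  dt_cont2 iz dt_add_left convex_sum)
open Pool.Agent.Q89.WS

variable {d : ℕ}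

/-- the size of the multiplier at `k` -/
noncomputable def ak (s : ℝ) (k : Fin d → ℤ) : ℝ := (1 + nq (iz k)) ^ (-s / 2)

lemma ak_pos (s : ℝ) (k : Fin d → ℤ) : 0 < ak s k := by
  have := nq_nonneg (iz k)
  exact Real.rpow_pos_of_pos (by positivity) _

lemma y_pt {s : ℝ} (hs : 0 ≤ s) {y z : ℝ → ℂ → ℂ} (hy : Pair s y z) : ∃ (C : ℝ) (M : ℕ), 0 < C ∧
    ∀ (d : ℕ) (k : Fin d → ℤ) (ξ : Fin d → ℝ) (i : Fin d) (η : ℝ), |η| ≤ 1 / 10 → ∀ t : ℝ,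
    1 ≤ t → t ≤ 2 → ‖y t (pt ξ i η)‖ ≤ C * ak s k * (1 + nq (ξ - iz k)) ^ M := by
  obtain ⟨C, hC, h⟩ := hy.bd
  obtain ⟨M0, hM0⟩ := exists_nat_ge (s / 2)
  refine ⟨C * 2 ^ (s / 2), M0, by positivity, ?_⟩
  intro d k ξ i η hη t h1 h2
  refine (h d ξ i η hη t h1 h2).1.trans ?_
  have := peetre ξ (iz k) s hs M0 hM0
  calc C * Jr ξ ^ (-s / 2) ≤
      C * (2 ^ (s / 2) * (1 + nq (iz k)) ^ (-s / 2) * (1 + nq (ξ - iz k)) ^ M0) := by gcongr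
    _ = _ := by
        unfold ak
        ring

/-- the kernel of a piece -/
noncomputable def Ky (y : ℝ → ℂ → ℂ) (k : Fin d → ℤ) (t : ℝ) : (Fin d → ℝ) → ℂ :=
  Kn (fun ξ => y t (nq ξ) * gf k ξ)

lemma Ky_bd {s : ℝ} (hs : 0 ≤ s) {y z : ℝ → ℂ → ℂ} (hy : Pair s y z) (n : ℕ) : ∃ C : ℝ, 0 < C ∧
    ∀ (k : Fin (n + 1) → ℤ) (t : ℝ), 1 ≤ t → t ≤ 2 → ∀ v, ‖Ky y k t v‖ ≤ C * ak s k * Wt v := by
  obtain ⟨C1, M, hC1, h1⟩ := y_pt hs hy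
  obtain ⟨C2, hC2, h2⟩ := Kn_Wt n M
  refine ⟨C2 * C1, by positivity, ?_⟩
  intro k t ht1 ht2 v
  have h3 := h2 (y t) (hy.dy t) k (C1 * ak s k) (mul_pos hC1 (ak_pos s k))
    (fun ξ i η hη => h1 _ k ξ i η hη t ht1 ht2) v
  refine h3.trans (le_of_eq ?_)
  ring

lemma U_rep {s : ℝ} (hs : 0 ≤ s) {y z : ℝ → ℂ → ℂ} (hy : Pair s y z) {n : ℕ}
    {f : (Fin (n + 1) → ℝ) → ℂ} (hf : Integrable f) (k : Fin (n + 1) → ℤ) {t : ℝ} (ht1 : 1 ≤ t)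
    (ht2 : t ≤ 2) (x : Fin (n + 1) → ℝ) :
    U y f k t x = ∫ v, Ky y k t v * hk f k (x - v) := by
  obtain ⟨C1, M, hC1, h1⟩ := y_pt hs hy
  refine piece hf (y_nq hy measurable_const measurable_id) (A := C1 * ak s k) (M := M)
    (mul_pos hC1 (ak_pos s k)).le ?_ x
  intro ξ
  have := h1 _ k ξ 0 0 (by norm_num) t ht1 ht2
  rwa [pt_zero] at this

/-- Cauchy-Schwarz for averages -/
lemma avg_sq {X : Type*} [MeasurableSpace X] (μ : Measure X) (w F : X → ℝ≥0∞) (hw : Measurable w)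
    (hF : Measurable F) : (∫⁻ x, w x * F x ∂μ) ^ 2 ≤ (∫⁻ x, w x ∂μ) * ∫⁻ x, w x * F x ^ 2 ∂μ := by
  have h := wcs μ w F (fun _ => 1) hw hF measurable_const
  simp only [mul_one, one_pow] at h
  rw [mul_comm (∫⁻ x, w x ∂μ)]
  exact h

/-- the inner average -/
noncomputable def Q1 (F : (Fin d → ℝ) → ℝ≥0∞) (z : Fin d → ℝ) : ℝ≥0∞ :=
  ∫⁻ y, ‖KR wg (z - y)‖ₑ * F y
/-- the second average -/
noncomputable def Q2 (F : (Fin d → ℝ) → ℝ≥0∞) (x : Fin d → ℝ) : ℝ≥0∞ :=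
  ∫⁻ z, ‖KR w0 (x - z)‖ₑ * Q1 F z
/-- the third average -/
noncomputable def Q3 (F : (Fin d → ℝ) → ℝ≥0∞) (x : Fin d → ℝ) : ℝ≥0∞ :=
  ∫⁻ v, ENNReal.ofReal (Wt v) * Q2 F (x - v)

lemma KRe_meas (w : ℝ → ℝ) (hw : ContDiff ℝ 2 w) :
    Measurable fun q : (Fin d → ℝ) × (Fin d → ℝ) => ‖KR w (q.1 - q.2)‖ₑ :=
  ((KR_cont w hw).measurable.comp (by fun_prop)).enorm

lemma KRs_meas (w : ℝ → ℝ) (hw : ContDiff ℝ 2 w) (z : Fin d → ℝ) :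
    Measurable fun y => ‖KR w (z - y)‖ₑ :=
  ((KR_cont w hw).measurable.comp (by fun_prop)).enorm

lemma Q1_meas {F : (Fin d → ℝ) → ℝ≥0∞} (hF : Measurable F) : Measurable (Q1 F) := by
  have h : Measurable fun q : (Fin d → ℝ) × (Fin d → ℝ) => ‖KR wg (q.1 - q.2)‖ₑ * F q.2 :=
    (KRe_meas wg wg_cd).mul (hF.comp measurable_snd)
  exact h.lintegral_prod_right'

lemma Q2_meas {F : (Fin d → ℝ) → ℝ≥0∞} (hF : Measurable F) : Measurable (Q2 F) := by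
  have h : Measurable fun q : (Fin d → ℝ) × (Fin d → ℝ) => ‖KR w0 (q.1 - q.2)‖ₑ * Q1 F q.2 :=
    (KRe_meas w0 w0_cd).mul ((Q1_meas hF).comp measurable_snd)
  exact h.lintegral_prod_right'

lemma Q3_inner {F : (Fin d → ℝ) → ℝ≥0∞} (hF : Measurable F) (x : Fin d → ℝ) :
    Measurable fun v => ENNReal.ofReal (Wt v) * Q2 F (x - v) :=
  (Wt_cont.measurable.ennreal_ofReal).mul ((Q2_meas hF).comp (by fun_prop))

lemma Q1_sum {ι : Type*} (I : Finset ι) (F : ι → (Fin d → ℝ) → ℝ≥0∞) (hF : ∀ i, Measurable (F i))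
    (z : Fin d → ℝ) : Q1 (fun y => ∑ i ∈ I, F i y) z = ∑ i ∈ I, Q1 (F i) z := by
  unfold Q1
  simp only [Finset.mul_sum]
  rw [lintegral_finsetSum]
  intro i _
  exact ((KR_cont wg wg_cd).measurable.comp (by fun_prop)).enorm.mul (hF i)

lemma Q2_sum {ι : Type*} (I : Finset ι) (F : ι → (Fin d → ℝ) → ℝ≥0∞) (hF : ∀ i, Measurable (F i))
    (z : Fin d → ℝ) : Q2 (fun y => ∑ i ∈ I, F i y) z = ∑ i ∈ I, Q2 (F i) z := by
  unfold Q2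
  simp only [Q1_sum I F hF, Finset.mul_sum]
  rw [lintegral_finsetSum]
  intro i _
  exact ((KR_cont w0 w0_cd).measurable.comp (by fun_prop)).enorm.mul (Q1_meas (hF i))

lemma Q3_sum {ι : Type*} (I : Finset ι) (F : ι → (Fin d → ℝ) → ℝ≥0∞) (hF : ∀ i, Measurable (F i))
    (z : Fin d → ℝ) : Q3 (fun y => ∑ i ∈ I, F i y) z = ∑ i ∈ I, Q3 (F i) z := by
  unfold Q3
  simp only [Q2_sum I F hF, Finset.mul_sum]
  rw [lintegral_finsetSum]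
  intro i _
  exact Q3_inner (hF i) z

/-- averages of bounded functions -/
lemma Q3_bd (d : ℕ) : ∃ C : ℝ≥0, ∀ (F : (Fin d → ℝ) → ℝ≥0∞) (M : ℝ≥0∞), (∀ y, F y ≤ M) →
    ∀ x, Q3 F x ≤ C * M := by
  obtain ⟨C1, h1⟩ := KR_lint wg wg_cd d
  obtain ⟨C2, h2⟩ := KR_lint w0 w0_cd d
  obtain ⟨C3, h3⟩ := Pool.Agent.Q89.WS.Wt_lint d
  refine ⟨C3 * C2 * C1, fun F M hM x => ?_⟩
  have e1 : ∀ z, Q1 F z ≤ C1 * M := by
    intro z
    unfold Q1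
    calc ∫⁻ y, ‖KR wg (z - y)‖ₑ * F y ≤ ∫⁻ y, ‖KR wg (z - y)‖ₑ * M := by
          apply lintegral_mono
          intro y
          exact mul_le_mul_right (hM y) _
      _ = (∫⁻ y, ‖KR wg (z - y)‖ₑ) * M := lintegral_mul_const _ (KRs_meas wg wg_cd z)
      _ = (∫⁻ y, ‖KR wg y‖ₑ) * M := by
          rw [lintegral_sub_left_eq_self (fun y => ‖KR wg y‖ₑ) z]
      _ ≤ C1 * M := by gcongr
  have e2 : ∀ z, Q2 F z ≤ C2 * (C1 * M) := by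
    intro z
    unfold Q2
    calc ∫⁻ y, ‖KR w0 (z - y)‖ₑ * Q1 F y ≤ ∫⁻ y, ‖KR w0 (z - y)‖ₑ * (C1 * M) := by
          apply lintegral_mono
          intro y
          exact mul_le_mul_right (e1 y) _
      _ = (∫⁻ y, ‖KR w0 (z - y)‖ₑ) * (C1 * M) := lintegral_mul_const _ (KRs_meas w0 w0_cd z)
      _ = (∫⁻ y, ‖KR w0 y‖ₑ) * (C1 * M) := by
          rw [lintegral_sub_left_eq_self (fun y => ‖KR w0 y‖ₑ) z]
      _ ≤ C2 * (C1 * M) := by gcongr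
  unfold Q3
  calc ∫⁻ v, ENNReal.ofReal (Wt v) * Q2 F (x - v) ≤
      ∫⁻ v, ENNReal.ofReal (Wt v) * (C2 * (C1 * M)) := by
        apply lintegral_mono
        intro y
        exact mul_le_mul_right (e2 _) _
    _ = (∫⁻ v, ENNReal.ofReal (Wt v)) * (C2 * (C1 * M)) := by
        rw [lintegral_mul_const _ Wt_cont.measurable.ennreal_ofReal]
    _ ≤ C3 * (C2 * (C1 * M)) := by gcongr
    _ = _ := by
        push_cast
        ring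

lemma hk_sq (d : ℕ) : ∃ C : ℝ≥0, ∀ (f : (Fin d → ℝ) → ℂ), Measurable f → Integrable f →
    ∀ (S : Finset (Fin d → ℤ)) (x : Fin d → ℝ), ∑ k ∈ S, ‖hk f k x‖ₑ ^ 2 ≤
      C * Q2 (fun y => ‖f y‖ₑ ^ 2) x := by
  obtain ⟨β, hβ⟩ := KR_lint w0 w0_cd d
  obtain ⟨C3, hC3⟩ := bessel_loc d
  refine ⟨β * C3, fun f hfm hf S x => ?_⟩
  have hKm : Measurable fun z : Fin d → ℝ => ‖KR w0 (x - z)‖ₑ :=
    ((KR_cont w0 w0_cd).measurable.comp (by fun_prop)).enorm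
  have hgm : ∀ k, Measurable (gk f k) := fun k => (gk_cont hf k).measurable
  have hK1 : ∫⁻ z, ‖KR w0 (x - z)‖ₑ ≤ β := by
    rw [lintegral_sub_left_eq_self (fun y => ‖KR w0 y‖ₑ) x]
    exact hβ
  have h1 : ∀ k, ‖hk f k x‖ₑ ^ 2 ≤ β * ∫⁻ z, ‖KR w0 (x - z)‖ₑ * ‖gk f k z‖ₑ ^ 2 := by
    intro k
    have e1 : ‖hk f k x‖ₑ ≤ ∫⁻ z, ‖KR w0 (x - z)‖ₑ * ‖gk f k z‖ₑ := by
      unfold hk cnv
      refine (enorm_integral_le_lintegral_enorm _).trans (le_of_eq ?_)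
      congr 1
      ext z
      rw [enorm_mul]
      congr 1
      rw [← ofReal_norm, ← ofReal_norm, KM_norm]
    calc ‖hk f k x‖ₑ ^ 2 ≤ (∫⁻ z, ‖KR w0 (x - z)‖ₑ * ‖gk f k z‖ₑ) ^ 2 := by gcongr
      _ ≤ (∫⁻ z, ‖KR w0 (x - z)‖ₑ) * ∫⁻ z, ‖KR w0 (x - z)‖ₑ * ‖gk f k z‖ₑ ^ 2 :=
          avg_sq _ _ _ hKm (hgm k).enorm
      _ ≤ _ := by gcongr
  calc ∑ k ∈ S, ‖hk f k x‖ₑ ^ 2 ≤ ∑ k ∈ S, β * ∫⁻ z, ‖KR w0 (x - z)‖ₑ * ‖gk f k z‖ₑ ^ 2 :=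
        Finset.sum_le_sum fun k _ => h1 k
    _ = β * ∫⁻ z, ‖KR w0 (x - z)‖ₑ * ∑ k ∈ S, ‖gk f k z‖ₑ ^ 2 := by
        rw [← Finset.mul_sum]
        congr 1
        simp only [Finset.mul_sum]
        rw [lintegral_finsetSum]
        intro k _
        exact hKm.mul ((hgm k).enorm.pow_const 2)
    _ ≤ β * ∫⁻ z, ‖KR w0 (x - z)‖ₑ * (C3 * Q1 (fun y => ‖f y‖ₑ ^ 2) z) := by
        gcongr with z
        exact hC3 f hfm hf S z
    _ = _ := by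
        unfold Q2
        have e1 : ∀ z, ‖KR w0 (x - z)‖ₑ * (C3 * Q1 (fun y => ‖f y‖ₑ ^ 2) z) =
            C3 * (‖KR w0 (x - z)‖ₑ * Q1 (fun y => ‖f y‖ₑ ^ 2) z) := fun z => by ring
        simp only [e1]
        have e2 : Measurable fun z => ‖KR w0 (x - z)‖ₑ * Q1 (fun y => ‖f y‖ₑ ^ 2) z :=
          hKm.mul (Q1_meas (hfm.enorm.pow_const 2))
        rw [lintegral_const_mul _ e2]
        push_cast
        ring

/-- **the inequality of Bessel for the pieces of the solution** -/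
theorem U_bessel {s : ℝ} (hs : 0 ≤ s) {y z : ℝ → ℂ → ℂ} (hy : Pair s y z) (n : ℕ) : ∃ C : ℝ≥0,
    ∀ (f : (Fin (n + 1) → ℝ) → ℂ), Measurable f → Integrable f →
    ∀ (S : Finset (Fin (n + 1) → ℤ)) (a : ℝ), (∀ k ∈ S, ak s k ≤ a) → ∀ t : ℝ, 1 ≤ t → t ≤ 2 →
    ∀ x : Fin (n + 1) → ℝ, ∑ k ∈ S, ‖U y f k t x‖ₑ ^ 2 ≤
      C * ENNReal.ofReal a ^ 2 * Q3 (fun y => ‖f y‖ₑ ^ 2) x := by
  obtain ⟨C1, hC1, h1⟩ := Ky_bd hs hy n
  obtain ⟨C2, h2⟩ := Pool.Agent.Q89.WS.Wt_lint (n + 1)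
  obtain ⟨C3, h3⟩ := hk_sq (n + 1)
  refine ⟨C1.toNNReal ^ 2 * C2 * C3, fun f hfm hf S a ha t ht1 ht2 x => ?_⟩
  have hWm : Measurable fun v : Fin (n + 1) → ℝ => ENNReal.ofReal (Wt v) :=
    Wt_cont.measurable.ennreal_ofReal
  have hhm : ∀ k, Measurable fun v => ‖hk f k (x - v)‖ₑ := fun k =>
    ((hk_cont hf k).measurable.comp (by fun_prop)).enorm
  have e1 : ∀ k ∈ S, ‖U y f k t x‖ₑ ^ 2 ≤ (C1.toNNReal : ℝ≥0∞) ^ 2 * ENNReal.ofReal a ^ 2 * C2 *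
      ∫⁻ v, ENNReal.ofReal (Wt v) * ‖hk f k (x - v)‖ₑ ^ 2 := by
    intro k hkS
    have g1 : ‖U y f k t x‖ₑ ≤ ENNReal.ofReal (C1 * a) *
        ∫⁻ v, ENNReal.ofReal (Wt v) * ‖hk f k (x - v)‖ₑ := by
      have g2 : Measurable fun v => ENNReal.ofReal (Wt v) * ‖hk f k (x - v)‖ₑ := hWm.mul (hhm k)
      rw [U_rep hs hy hf k ht1 ht2 x, ← lintegral_const_mul _ g2]
      refine (enorm_integral_le_lintegral_enorm _).trans ?_
      apply lintegral_mono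
      intro v
      simp only
      rw [enorm_mul, ← mul_assoc]
      gcongr
      rw [← ENNReal.ofReal_mul (by
        have := ha k hkS
        have := ak_pos s k
        nlinarith), ← ofReal_norm]
      apply ENNReal.ofReal_le_ofReal
      refine (h1 k t ht1 ht2 v).trans ?_
      have := Wt_pos v
      have := ha k hkS
      gcongr
    calc ‖U y f k t x‖ₑ ^ 2 ≤ (ENNReal.ofReal (C1 * a) *
        ∫⁻ v, ENNReal.ofReal (Wt v) * ‖hk f k (x - v)‖ₑ) ^ 2 := by gcongr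
      _ = ENNReal.ofReal (C1 * a) ^ 2 * (∫⁻ v, ENNReal.ofReal (Wt v) * ‖hk f k (x - v)‖ₑ) ^ 2 :=
          mul_pow _ _ _
      _ ≤ ENNReal.ofReal (C1 * a) ^ 2 * ((∫⁻ v : Fin (n + 1) → ℝ, ENNReal.ofReal (Wt v)) *
          ∫⁻ v, ENNReal.ofReal (Wt v) * ‖hk f k (x - v)‖ₑ ^ 2) := by
          gcongr
          exact avg_sq _ _ _ hWm (hhm k)
      _ ≤ ENNReal.ofReal (C1 * a) ^ 2 * (C2 *
          ∫⁻ v, ENNReal.ofReal (Wt v) * ‖hk f k (x - v)‖ₑ ^ 2) := by gcongr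
      _ = _ := by
          rw [ENNReal.ofReal_mul hC1.le, mul_pow]
          change _ = ENNReal.ofReal C1 ^ 2 * _ * _ * _
          ring
  calc ∑ k ∈ S, ‖U y f k t x‖ₑ ^ 2 ≤ ∑ k ∈ S, (C1.toNNReal : ℝ≥0∞) ^ 2 * ENNReal.ofReal a ^ 2 *
        C2 * ∫⁻ v, ENNReal.ofReal (Wt v) * ‖hk f k (x - v)‖ₑ ^ 2 := Finset.sum_le_sum e1
    _ = (C1.toNNReal : ℝ≥0∞) ^ 2 * ENNReal.ofReal a ^ 2 * C2 *
        ∫⁻ v, ENNReal.ofReal (Wt v) * ∑ k ∈ S, ‖hk f k (x - v)‖ₑ ^ 2 := by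
        rw [← Finset.mul_sum]
        congr 1
        simp only [Finset.mul_sum]
        rw [lintegral_finsetSum]
        intro k _
        exact hWm.mul ((hhm k).pow_const 2)
    _ ≤ (C1.toNNReal : ℝ≥0∞) ^ 2 * ENNReal.ofReal a ^ 2 * C2 *
        ∫⁻ v, ENNReal.ofReal (Wt v) * (C3 * Q2 (fun y => ‖f y‖ₑ ^ 2) (x - v)) := by
        gcongr with v
        exact h3 f hfm hf S (x - v)
    _ = _ := by
        unfold Q3
        have e2 : ∀ v, ENNReal.ofReal (Wt v) * (C3 * Q2 (fun y => ‖f y‖ₑ ^ 2) (x - v)) =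
            C3 * (ENNReal.ofReal (Wt v) * Q2 (fun y => ‖f y‖ₑ ^ 2) (x - v)) := fun v => by ring
        simp only [e2]
        rw [lintegral_const_mul _ (Q3_inner (hfm.enorm.pow_const 2) x)]
        push_cast
        ring

end Pool.Agent.Q263.WR
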