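import Pool.Agent.Q263.WR.A
import Pool.Agent.H153R4.Pl
set_option autoImplicit false

/-! Plancherel's theorem, and the square integrable bound of the pieces. -/

namespace Pool.Agent.Q263.WR

open MeasureTheory Set Complex Filter Topology
open scoped ENNReal NNReal FourierTransform
open Pool.Agent.Y183.LS (ec ec_norm ec_enorm ec_add ec_cont ec_zero ec_sum dt dt_add dt_comm dt_cont
  dt_cont2 iz dt_add_left convex_sum)
open Pool.Agent.Q89.WS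

variable {d : ℕ}

lemma ft_euc (f : (Fin d → ℝ) → ℂ) (ξ : EuclideanSpace ℝ (Fin d)) :
    𝓕 (fun v : EuclideanSpace ℝ (Fin d) => f v.ofLp) ξ = ft f ξ.ofLp := by
  rw [Real.fourier_eq']
  unfold ft
  rw [← (PiLp.volume_preserving_ofLp (Fin d)).integral_comp (MeasurableEquiv.toLp 2 (Fin d → ℝ)).symm.measurableEmbedding]
  apply integral_congr_ae
  filter_upwards with v
  rw [smul_eq_mul]
  congr 1
  unfold ec dt
  congr 1
  rw [PiLp.inner_apply]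
  simp only [RCLike.inner_apply, conj_trivial]
  push_cast
  have : ∑ x, (ξ.ofLp x : ℂ) * (v.ofLp x : ℂ) = ∑ x, (v.ofLp x : ℂ) * (ξ.ofLp x : ℂ) :=
    Finset.sum_congr rfl fun i _ => mul_comm _ _
  rw [this]
  ring

/-- **Plancherel's theorem** -/
theorem planch {f : (Fin d → ℝ) → ℂ} (hf : Integrable f) (h2 : ∫⁻ x, ‖f x‖ₑ ^ 2 ≠ ∞) :
    ∫⁻ ξ, ‖ft f ξ‖ₑ ^ 2 = ∫⁻ x, ‖f x‖ₑ ^ 2 := by
  have hmp := PiLp.volume_preserving_ofLp (Fin d)
  have hme : MeasurableEmbedding (WithLp.ofLp : EuclideanSpace ℝ (Fin d) → (Fin d → ℝ)) :=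
    (MeasurableEquiv.toLp 2 (Fin d → ℝ)).symm.measurableEmbedding
  have h1 : Integrable (fun v : EuclideanSpace ℝ (Fin d) => f v.ofLp) :=
    (hmp.integrable_comp_emb hme).mpr hf
  have h3 : MemLp (fun v : EuclideanSpace ℝ (Fin d) => f v.ofLp) 2 := by
    refine ⟨h1.1, ?_⟩
    rw [eLpNorm_lt_top_iff_lintegral_rpow_enorm_lt_top (by norm_num) (by norm_num)]
    have e : ∫⁻ v : EuclideanSpace ℝ (Fin d), ‖f v.ofLp‖ₑ ^ (2 : ℝ≥0∞).toReal =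
        ∫⁻ x, ‖f x‖ₑ ^ 2 := by
      rw [← hmp.lintegral_comp_emb hme]
      simp
    rw [e]
    exact lt_top_iff_ne_top.mpr h2
  have h4 := Pool.Agent.H153R4.plancherel (fun v : EuclideanSpace ℝ (Fin d) => f v.ofLp) h1 h3
  simp only [ft_euc] at h4
  rw [hmp.lintegral_comp_emb hme (fun ξ => ‖ft f ξ‖ₑ ^ 2),
    hmp.lintegral_comp_emb hme (fun x => ‖f x‖ₑ ^ 2)] at h4
  exact h4

/-- for the inverse transform -/
lemma planch_inv {h : (Fin d → ℝ) → ℂ} (hh : Integrable h) (h2 : ∫⁻ x, ‖h x‖ₑ ^ 2 ≠ ∞) :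
    ∫⁻ x : Fin d → ℝ, ‖∫ ξ, ec (dt x ξ) * h ξ‖ₑ ^ 2 = ∫⁻ ξ, ‖h ξ‖ₑ ^ 2 := by
  have e : ∀ x : Fin d → ℝ, ∫ ξ, ec (dt x ξ) * h ξ = ft h (-x) := by
    intro x
    unfold ft
    congr 1
    ext ξ
    congr 2
    unfold dt
    rw [← Finset.sum_neg_distrib]
    apply Finset.sum_congr rfl
    intro i _
    rw [Pi.neg_apply]
    ring
  simp only [e]
  have e2 := lintegral_sub_left_eq_self (μ := (volume : Measure (Fin d → ℝ)))
    (fun x => ‖ft h x‖ₑ ^ 2) 0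
  simp only [zero_sub] at e2
  rw [e2, planch hh h2]

lemma BB_ne {k : Fin d → ℤ} {ξ : Fin d → ℝ} (h : BB k ξ ≠ 0) (i : Fin d) : |ξ i - k i| < 1 := by
  rw [BB_eq, Finset.prod_ne_zero_iff] at h
  by_contra h5
  push Not at h5
  apply h i (Finset.mem_univ i)
  rw [b1_out h5]
  ring

lemma nq_near {k : Fin d → ℤ} {ξ : Fin d → ℝ} (h : BB k ξ ≠ 0) : nq (ξ - iz k) ≤ d := by
  unfold nq
  calc ∑ i, (ξ - iz k) i ^ 2 ≤ ∑ _i : Fin d, (1 : ℝ) := by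
        apply Finset.sum_le_sum
        intro i _
        have h1 := BB_ne h i
        rw [Pi.sub_apply, ← sq_abs]
        change |ξ i - k i| ^ 2 ≤ 1
        have := abs_nonneg (ξ i - k i)
        nlinarith
    _ = d := by simp

lemma sub_box (S : Finset (Fin d → ℤ)) : ∃ N : ℕ, S ⊆ box d N := by
  refine ⟨∑ k ∈ S, ∑ i, (k i).natAbs, ?_⟩
  intro k hk
  rw [mem_box]
  intro i
  have h1 : (k i).natAbs ≤ ∑ i, (k i).natAbs :=
    Finset.single_le_sum (f := fun i => (k i).natAbs) (fun _ _ => Nat.zero_le _) (Finset.mem_univ i)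
  have h2 : ∑ i, (k i).natAbs ≤ ∑ k ∈ S, ∑ i, (k i).natAbs :=
    Finset.single_le_sum (f := fun k : Fin d → ℤ => ∑ i, (k i).natAbs) (fun _ _ => Nat.zero_le _) hk
  have h3 := h1.trans h2
  rw [Int.abs_eq_natAbs]
  exact_mod_cast h3

lemma BB_le (S : Finset (Fin d → ℤ)) (ξ : Fin d → ℝ) : ∑ k ∈ S, BB k ξ ≤ 1 := by
  obtain ⟨N, hN⟩ := sub_box S
  exact (Finset.sum_le_sum_of_subset_of_nonneg hN fun k _ _ => BB_nonneg k ξ).trans (BB_sum_le N ξ)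

/-- the multiplier of a block -/
noncomputable def Ps (S : Finset (Fin d → ℤ)) (ξ : Fin d → ℝ) : ℝ := ∑ k ∈ S, BB k ξ

lemma Ps_nonneg (S : Finset (Fin d → ℤ)) (ξ : Fin d → ℝ) : 0 ≤ Ps S ξ :=
  Finset.sum_nonneg fun k _ => BB_nonneg k ξ

lemma Ps_cont (S : Finset (Fin d → ℤ)) : Continuous (Ps S) :=
  continuous_finsetSum _ fun k _ => BB_cont k

/-- the operator of a block -/
noncomputable def TT (y : ℝ → ℂ → ℂ) (S : Finset (Fin d → ℤ)) (g : (Fin d → ℝ) → ℂ) (t : ℝ)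
    (x : Fin d → ℝ) : ℂ := ∑ k ∈ S, U y g k t x

lemma hT_int {s : ℝ} (hs : 0 ≤ s) {y z : ℝ → ℂ → ℂ} (hy : Pair s y z) {n : ℕ}
    {g : (Fin (n + 1) → ℝ) → ℂ} (hg : Integrable g) (S : Finset (Fin (n + 1) → ℤ)) {t : ℝ}
    (ht1 : 1 ≤ t) (ht2 : t ≤ 2) :
    Integrable fun ξ : Fin (n + 1) → ℝ => y t (nq ξ) * ((Ps S ξ : ℂ) * ft g ξ) := by
  have h1 : ∀ k ∈ S, Integrable fun ξ : Fin (n + 1) → ℝ => y t (nq ξ) * ((BB k ξ : ℂ) * ft g ξ) := by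
    intro k _
    have h2 := U_int hs hy hg k ht1 ht2 0
    refine h2.congr ?_
    filter_upwards with ξ
    have e : dt (0 : Fin (n + 1) → ℝ) ξ = 0 := by
      unfold dt
      simp
    rw [e, ec_zero, one_mul]
  refine (integrable_finsetSum S h1).congr ?_
  filter_upwards with ξ
  unfold Ps
  push_cast
  rw [Finset.sum_mul, Finset.mul_sum]

lemma TT_eq {s : ℝ} (hs : 0 ≤ s) {y z : ℝ → ℂ → ℂ} (hy : Pair s y z) {n : ℕ}
    {g : (Fin (n + 1) → ℝ) → ℂ} (hg : Integrable g) (S : Finset (Fin (n + 1) → ℤ)) {t : ℝ}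
    (ht1 : 1 ≤ t) (ht2 : t ≤ 2) (x : Fin (n + 1) → ℝ) :
    TT y S g t x = ∫ ξ, ec (dt x ξ) * (y t (nq ξ) * ((Ps S ξ : ℂ) * ft g ξ)) := by
  unfold TT U
  rw [← integral_finsetSum _ fun k _ => U_int hs hy hg k ht1 ht2 x]
  congr 1
  ext ξ
  unfold Ps
  push_cast
  rw [Finset.sum_mul, Finset.mul_sum, Finset.mul_sum]

/-- **the square integrable bound** -/
theorem TT_two {s : ℝ} (hs : 0 ≤ s) {y z : ℝ → ℂ → ℂ} (hy : Pair s y z) (n : ℕ) : ∃ C : ℝ≥0,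
    ∀ (g : (Fin (n + 1) → ℝ) → ℂ), Integrable g →
    ∀ (S : Finset (Fin (n + 1) → ℤ)) (a : ℝ), 0 < a → (∀ k ∈ S, ak s k ≤ a) → ∀ t : ℝ, 1 ≤ t → t ≤ 2 →
    ∫⁻ x, ‖TT y S g t x‖ₑ ^ 2 ≤ C * ENNReal.ofReal a ^ 2 * ∫⁻ x, ‖g x‖ₑ ^ 2 := by
  obtain ⟨C1, M, hC1, h1⟩ := y_pt hs hy
  set C2 : ℝ := C1 * (1 + ((n + 1 : ℕ) : ℝ)) ^ M with hC2
  have hC2p : 0 < C2 := by positivity
  refine ⟨C2.toNNReal ^ 2, fun g hg S a ha0 ha t ht1 ht2 => ?_⟩
  by_cases hinf : ∫⁻ x, ‖g x‖ₑ ^ 2 = ∞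
  · rw [hinf, ENNReal.mul_top]
    · exact le_top
    · simp only [ENNReal.coe_pow, ne_eq, mul_eq_zero, not_or]
      constructor
      · apply pow_ne_zero
        rw [ENNReal.coe_ne_zero]
        exact (Real.toNNReal_pos.mpr hC2p).ne'
      · apply pow_ne_zero
        exact (ENNReal.ofReal_pos.mpr ha0).ne'
  have hb : ∀ ξ : Fin (n + 1) → ℝ, ‖y t (nq ξ) * ((Ps S ξ : ℂ) * ft g ξ)‖ₑ ≤
      ENNReal.ofReal (C2 * a) * ‖ft g ξ‖ₑ := by
    intro ξ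
    rw [← mul_assoc, enorm_mul]
    gcongr
    rw [← ofReal_norm]
    apply ENNReal.ofReal_le_ofReal
    rw [norm_mul, Complex.norm_real, Real.norm_of_nonneg (Ps_nonneg S ξ)]
    by_cases h0 : Ps S ξ = 0
    · rw [h0, mul_zero]
      positivity
    · obtain ⟨k, hk, hk2⟩ := Finset.exists_ne_zero_of_sum_ne_zero h0
      have e1 := h1 _ k ξ 0 0 (by norm_num) t ht1 ht2
      rw [pt_zero] at e1
      have e2 := nq_near hk2
      have e3 := nq_nonneg (ξ - iz k)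
      have e4 := BB_le S ξ
      have e5 := ak_pos s k
      have e6 := ha k hk
      calc ‖y t (nq ξ)‖ * Ps S ξ ≤ (C1 * a * (1 + ((n + 1 : ℕ) : ℝ)) ^ M) * 1 := by
            refine mul_le_mul (e1.trans ?_) e4 (Ps_nonneg S ξ) (by positivity)
            gcongr
        _ = C2 * a := by
            rw [hC2]
            ring
  have hfin : ∫⁻ ξ, ‖y t (nq ξ) * ((Ps S ξ : ℂ) * ft g ξ)‖ₑ ^ 2 ≤
      ENNReal.ofReal (C2 * a) ^ 2 * ∫⁻ x, ‖g x‖ₑ ^ 2 := by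
    rw [← planch hg hinf, ← lintegral_const_mul' _ _ (ENNReal.pow_ne_top ENNReal.ofReal_ne_top)]
    apply lintegral_mono
    intro ξ
    simp only
    rw [← mul_pow]
    gcongr
    exact hb ξ
  have hfin2 : ENNReal.ofReal (C2 * a) ^ 2 * ∫⁻ x, ‖g x‖ₑ ^ 2 ≠ ∞ :=
    ENNReal.mul_ne_top (ENNReal.pow_ne_top ENNReal.ofReal_ne_top) hinf
  simp only [TT_eq hs hy hg S ht1 ht2]
  rw [planch_inv (hT_int hs hy hg S ht1 ht2) (ne_top_of_le_ne_top hfin2 hfin)]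
  refine hfin.trans (le_of_eq ?_)
  rw [ENNReal.ofReal_mul hC2p.le, mul_pow]
  push_cast
  rfl

end Pool.Agent.Q263.WR
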