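import Pool.Agent.Q263.WR.B
set_option autoImplicit false

/-! Families of functions: interpolation between the square integrable and the bounded case. -/

namespace Pool.Agent.Q263.WR

open MeasureTheory Set Complex Filter Topology
open scoped ENNReal NNReal FourierTransform
open Pool.Agent.Y183.LS (ec ec_norm ec_enorm ec_add ec_cont ec_zero ec_sum dt dt_add dt_comm dt_cont
  dt_cont2 iz dt_add_left convex_sum)
open Pool.Agent.Q89.WS

variable {d : ℕ}

/-- the interpolation theorem of Marcinkiewicz between `(2, 2)` and `(∞, ∞)` -/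
def MARC : Prop := ∀ (p : ℝ), 2 < p → ∃ C : ℝ≥0, ∀ (X Z : Type) [MeasurableSpace X]
    [MeasurableSpace Z] (μ : Measure X) [SFinite μ] (ν : Measure Z) (G : X → ℝ≥0) (F : Z → ℝ≥0)
    (D B : ℝ≥0), Measurable G → Measurable F → 0 < B →
    (∀ l : ℝ≥0, 0 < l → ∃ F1 : Z → ℝ≥0, Measurable F1 ∧ (∀ z, F z ≤ F1 z + B * l) ∧
      ∫⁻ z, (F1 z : ℝ≥0∞) ^ 2 ∂ν ≤ D * ∫⁻ x in {x | l < G x}, (G x : ℝ≥0∞) ^ 2 ∂μ) →
    ∫⁻ z, (F z : ℝ≥0∞) ^ p ∂ν ≤ C * D * (B : ℝ≥0∞) ^ (p - 2) * ∫⁻ x, (G x : ℝ≥0∞) ^ p ∂μ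

/-- the Euclidean norm of a family -/
noncomputable def nn {ι : Type*} (I : Finset ι) (v : ι → ℂ) : ℝ≥0 :=
  NNReal.sqrt (∑ i ∈ I, ‖v i‖₊ ^ 2)

lemma nn_sq {ι : Type*} (I : Finset ι) (v : ι → ℂ) : (nn I v : ℝ≥0∞) ^ 2 = ∑ i ∈ I, ‖v i‖ₑ ^ 2 := by
  unfold nn
  rw [← ENNReal.coe_pow, NNReal.sq_sqrt]
  push_cast
  rfl

lemma nn_rpow {ι : Type*} (I : Finset ι) (v : ι → ℂ) (p : ℝ) :
    (nn I v : ℝ≥0∞) ^ p = (∑ i ∈ I, ‖v i‖ₑ ^ 2) ^ (p / 2) := by
  rw [← nn_sq, ← ENNReal.rpow_natCast, ← ENNReal.rpow_mul]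
  congr 1
  push_cast
  ring

lemma nn_add {ι : Type*} (I : Finset ι) (v w : ι → ℂ) :
    nn I (fun i => v i + w i) ≤ nn I v + nn I w := by
  unfold nn
  have h := NNReal.Lp_add_le I (fun i => ‖v i‖₊) (fun i => ‖w i‖₊) (p := 2) (by norm_num)
  simp only [NNReal.rpow_ofNat] at h
  rw [NNReal.sqrt_eq_rpow, NNReal.sqrt_eq_rpow, NNReal.sqrt_eq_rpow]
  refine le_trans ?_ h
  gcongr with i _
  exact nnnorm_add_le _ _

lemma nn_meas {ι X : Type*} [MeasurableSpace X] (I : Finset ι) (v : X → ι → ℂ)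
    (hv : ∀ i, Measurable fun x => v x i) : Measurable fun x => nn I (v x) := by
  unfold nn
  apply Measurable.comp NNReal.continuous_sqrt.measurable
  exact Finset.measurable_sum _ fun i _ => (hv i).nnnorm.pow_const 2

lemma ft_add {f g : (Fin d → ℝ) → ℂ} (hf : Integrable f) (hg : Integrable g) (ξ : Fin d → ℝ) :
    ft (fun x => f x + g x) ξ = ft f ξ + ft g ξ := by
  unfold ft
  rw [← integral_add (mul_ec_int hf ξ) (mul_ec_int hg ξ)]
  congr 1
  ext x
  ring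

lemma hT_ec {s : ℝ} (hs : 0 ≤ s) {y z : ℝ → ℂ → ℂ} (hy : Pair s y z) {n : ℕ}
    {g : (Fin (n + 1) → ℝ) → ℂ} (hg : Integrable g) (S : Finset (Fin (n + 1) → ℤ)) {t : ℝ}
    (ht1 : 1 ≤ t) (ht2 : t ≤ 2) (x : Fin (n + 1) → ℝ) :
    Integrable fun ξ : Fin (n + 1) → ℝ => ec (dt x ξ) * (y t (nq ξ) * ((Ps S ξ : ℂ) * ft g ξ)) := by
  have h := hT_int hs hy hg S ht1 ht2
  refine h.mono ?_ ?_
  · have me : Measurable fun ξ : Fin (n + 1) → ℝ => ec (dt x ξ) :=
      ecdt_meas measurable_const measurable_id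
    exact me.aestronglyMeasurable.mul h.1
  · filter_upwards with ξ
    rw [norm_mul, ec_norm, one_mul]

lemma TT_add {s : ℝ} (hs : 0 ≤ s) {y z : ℝ → ℂ → ℂ} (hy : Pair s y z) {n : ℕ}
    {f g : (Fin (n + 1) → ℝ) → ℂ} (hf : Integrable f) (hg : Integrable g)
    (S : Finset (Fin (n + 1) → ℤ)) {t : ℝ} (ht1 : 1 ≤ t) (ht2 : t ≤ 2) (x : Fin (n + 1) → ℝ) :
    TT y S (fun x => f x + g x) t x = TT y S f t x + TT y S g t x := by
  have hfg : Integrable (fun x => f x + g x) := hf.add hg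
  rw [TT_eq hs hy hfg S ht1 ht2 x, TT_eq hs hy hf S ht1 ht2 x, TT_eq hs hy hg S ht1 ht2 x,
    ← integral_add (hT_ec hs hy hf S ht1 ht2 x) (hT_ec hs hy hg S ht1 ht2 x)]
  congr 1
  ext ξ
  rw [ft_add hf hg]
  ring

lemma TT_meas {s : ℝ} {y z : ℝ → ℂ → ℂ} (hy : Pair s y z)
    {g : (Fin d → ℝ) → ℂ} (hg : Integrable g) (S : Finset (Fin d → ℤ)) :
    Measurable fun q : ℝ × (Fin d → ℝ) => TT y S g q.1 q.2 := by
  unfold TT
  exact Finset.measurable_sum _ fun k _ => U_meas hy hg k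

section
attribute [local irreducible] TT

lemma TT_measx {s : ℝ} {y z : ℝ → ℂ → ℂ} (hy : Pair s y z)
    {g : (Fin d → ℝ) → ℂ} (hg : Integrable g) (S : Finset (Fin d → ℤ)) (t : ℝ) :
    Measurable fun x : Fin d → ℝ => TT y S g t x :=
  by
  have h1 := TT_meas hy hg S
  have h2 : Measurable fun x : Fin d → ℝ => ((t, x) : ℝ × (Fin d → ℝ)) :=
    measurable_const.prodMk measurable_id
  exact h1.comp h2

end

/-- **the bound for bounded families** -/
theorem TT_inf {s : ℝ} (hs : 0 ≤ s) {y z : ℝ → ℂ → ℂ} (hy : Pair s y z) (n : ℕ) : ∃ C : ℝ≥0,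
    0 < C ∧ ∀ (I : Finset ℕ) (g : ℕ → (Fin (n + 1) → ℝ) → ℂ), (∀ i, Measurable (g i)) →
    (∀ i, Integrable (g i)) → ∀ (S : ℕ → Finset (Fin (n + 1) → ℤ)) (a : ℝ) (N : ℕ),
    (∀ i ∈ I, (S i).card ≤ N) → (∀ i ∈ I, ∀ k ∈ S i, ak s k ≤ a) → ∀ (L : ℝ≥0),
    (∀ x, ∑ i ∈ I, ‖g i x‖ₑ ^ 2 ≤ (L : ℝ≥0∞) ^ 2) → ∀ t : ℝ, 1 ≤ t → t ≤ 2 →
    ∀ x : Fin (n + 1) → ℝ, ∑ i ∈ I, ‖TT y (S i) (g i) t x‖ₑ ^ 2 ≤
      C * (ENNReal.ofReal a ^ 2 * N * (L : ℝ≥0∞) ^ 2) := by
  obtain ⟨C1, h1⟩ := U_bessel hs hy n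
  obtain ⟨C2, h2⟩ := Q3_bd (n + 1)
  refine ⟨C1 * C2 + 1, by positivity, ?_⟩
  intro I g hgm hg S a N hN ha L hL t ht1 ht2 x
  have e1 : ∀ i ∈ I, ‖TT y (S i) (g i) t x‖ₑ ^ 2 ≤
      N * (C1 * ENNReal.ofReal a ^ 2) * Q3 (fun y => ‖g i y‖ₑ ^ 2) x := by
    intro i hi
    have e2 : ‖TT y (S i) (g i) t x‖ₑ ^ 2 ≤ N * ∑ k ∈ S i, ‖U y (g i) k t x‖ₑ ^ 2 := by
      unfold TT
      calc ‖∑ k ∈ S i, U y (g i) k t x‖ₑ ^ 2 ≤ (∑ k ∈ S i, ‖U y (g i) k t x‖ₑ) ^ 2 := by
            gcongr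
            exact enorm_sum_le _ _
        _ ≤ (S i).card * ∑ k ∈ S i, ‖U y (g i) k t x‖ₑ ^ 2 := by
            have h := convex_sum (S i) (fun _ => 1) (fun k => ‖U y (g i) k t x‖ₑ) 2 (by norm_num)
              (fun _ _ => ENNReal.one_ne_top)
            simp only [one_mul, Finset.sum_const, nsmul_eq_mul, mul_one, ENNReal.rpow_ofNat] at h
            have e : (2 : ℝ) - 1 = 1 := by norm_num
            rw [e, ENNReal.rpow_one] at h
            exact h
        _ ≤ _ := by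
            gcongr
            exact hN i hi
    refine e2.trans ?_
    rw [mul_assoc]
    gcongr
    exact h1 (g i) (hgm i) (hg i) (S i) a (ha i hi) t ht1 ht2 x
  calc ∑ i ∈ I, ‖TT y (S i) (g i) t x‖ₑ ^ 2 ≤
      ∑ i ∈ I, N * (C1 * ENNReal.ofReal a ^ 2) * Q3 (fun y => ‖g i y‖ₑ ^ 2) x :=
        Finset.sum_le_sum e1
    _ = N * (C1 * ENNReal.ofReal a ^ 2) * Q3 (fun y => ∑ i ∈ I, ‖g i y‖ₑ ^ 2) x := by
        rw [← Finset.mul_sum, Q3_sum I (fun i y => ‖g i y‖ₑ ^ 2)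
          (fun i => (hgm i).enorm.pow_const 2)]
    _ ≤ N * (C1 * ENNReal.ofReal a ^ 2) * (C2 * (L : ℝ≥0∞) ^ 2) := by
        gcongr
        exact h2 _ _ hL x
    _ = (C1 * C2) * (ENNReal.ofReal a ^ 2 * N * (L : ℝ≥0∞) ^ 2) := by ring
    _ ≤ _ := by
        gcongr
        push_cast
        exact le_self_add

/-- **the vector valued estimate**, one group -/
theorem TT_group (hM : MARC) {s : ℝ} (hs : 0 ≤ s) {y z : ℝ → ℂ → ℂ} (hy : Pair s y z) (n : ℕ)
    (p : ℝ) (hp : 2 ≤ p) : ∃ C : ℝ≥0,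
    ∀ (I : Finset ℕ) (g : ℕ → (Fin (n + 1) → ℝ) → ℂ), (∀ i, Measurable (g i)) →
    (∀ i, Integrable (g i)) → ∀ (S : ℕ → Finset (Fin (n + 1) → ℤ)) (a : ℝ) (N : ℕ), 0 < a → 0 < N →
    (∀ i ∈ I, (S i).card ≤ N) → (∀ i ∈ I, ∀ k ∈ S i, ak s k ≤ a) → ∀ t : ℝ, 1 ≤ t → t ≤ 2 →
    ∫⁻ x, (∑ i ∈ I, ‖TT y (S i) (g i) t x‖ₑ ^ 2) ^ (p / 2) ≤
      C * ENNReal.ofReal (a ^ p * (N : ℝ) ^ (p / 2 - 1)) *
        ∫⁻ x, (∑ i ∈ I, ‖g i x‖ₑ ^ 2) ^ (p / 2) := by
  obtain ⟨C2, h2⟩ := TT_two hs hy n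
  obtain ⟨C3, hC3, h3⟩ := TT_inf hs hy n
  rcases hp.eq_or_lt with hp2 | hp2
  · subst hp2
    refine ⟨C2, ?_⟩
    intro I g hgm hg S a N ha hN hcard hak t ht1 ht2
    simp only [div_self (two_ne_zero' ℝ), ENNReal.rpow_one, sub_self, Real.rpow_zero, mul_one,
      Real.rpow_ofNat]
    rw [lintegral_finsetSum _ fun i _ => ((TT_measx hy (hg i) (S i) t).enorm.pow_const 2),
      lintegral_finsetSum _ fun i _ => ((hgm i).enorm.pow_const 2), Finset.mul_sum]
    apply Finset.sum_le_sum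
    intro i hi
    rw [ENNReal.ofReal_pow ha.le]
    exact h2 (g i) (hg i) (S i) a ha (hak i hi) t ht1 ht2
  · obtain ⟨C, hC⟩ := hM p hp2
    refine ⟨C * C2 * C3 ^ ((p - 2) / 2), ?_⟩
    intro I g hgm hg S a N ha hN hcard hak t ht1 ht2
    obtain ⟨G, hG⟩ : ∃ G : (Fin (n + 1) → ℝ) → ℝ≥0, G = fun x => nn I fun i => g i x := ⟨_, rfl⟩
    obtain ⟨F, hF⟩ : ∃ F : (Fin (n + 1) → ℝ) → ℝ≥0, F = fun x => nn I fun i =>
      TT y (S i) (g i) t x := ⟨_, rfl⟩
    have hGm : Measurable G := by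
      rw [hG]
      exact nn_meas I (fun x i => g i x) fun i => hgm i
    have hFm : Measurable F := by
      rw [hF]
      exact nn_meas I (fun x i => TT y (S i) (g i) t x) fun i => TT_measx hy (hg i) (S i) t
    set a' : ℝ≥0 := a.toNNReal with ha'
    have ha'p : 0 < a' := Real.toNNReal_pos.mpr ha
    have hNp : (0 : ℝ≥0) < N := by exact_mod_cast hN
    obtain ⟨B, hB⟩ : ∃ B : ℝ≥0, B = NNReal.sqrt (C3 * (a' ^ 2 * N)) := ⟨_, rfl⟩
    have hBp : 0 < B := by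
      rw [hB]
      exact NNReal.sqrt_pos.mpr (by positivity)
    have hB2 : B ^ 2 = C3 * (a' ^ 2 * N) := by
      rw [hB, NNReal.sq_sqrt]
    have key := hC (Fin (n + 1) → ℝ) (Fin (n + 1) → ℝ) volume volume G F (C2 * a' ^ 2) B hGm hFm hBp ?_
    · simp only [hF, hG, nn_rpow] at key
      refine key.trans (le_of_eq ?_)
      congr 1
      have e1 : (B : ℝ≥0∞) ^ (p - 2) = ((C3 * (a' ^ 2 * N) : ℝ≥0) : ℝ≥0∞) ^ ((p - 2) / 2) := by
        rw [← hB2, ENNReal.coe_pow, ← ENNReal.rpow_natCast, ← ENNReal.rpow_mul]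
        congr 1
        push_cast
        ring
      have hr0 : 0 ≤ (p - 2) / 2 := by linarith
      rw [e1, ENNReal.ofReal_mul (by positivity)]
      have e2 : ENNReal.ofReal (a ^ p) = (a' : ℝ≥0∞) ^ 2 * ((a' : ℝ≥0∞) ^ 2) ^ ((p - 2) / 2) := by
        rw [← ENNReal.ofReal_rpow_of_pos ha]
        change (a' : ℝ≥0∞) ^ p = _
        rw [← ENNReal.rpow_natCast, ← ENNReal.rpow_mul, ← ENNReal.rpow_add _ _ (by
          rw [ne_eq, ENNReal.coe_eq_zero]
          exact ha'p.ne') ENNReal.coe_ne_top]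
        congr 1
        push_cast
        ring
      have e3 : ENNReal.ofReal ((N : ℝ) ^ (p / 2 - 1)) = (N : ℝ≥0∞) ^ ((p - 2) / 2) := by
        rw [← ENNReal.ofReal_rpow_of_pos (by exact_mod_cast hN), ENNReal.ofReal_natCast]
        congr 1
        ring
      rw [e2, e3]
      push_cast
      rw [ENNReal.mul_rpow_of_nonneg _ _ hr0, ENNReal.mul_rpow_of_nonneg _ _ hr0,
        ENNReal.coe_rpow_of_nonneg _ hr0]
      ring
    · intro l hl
      obtain ⟨E, hE⟩ : ∃ E : Set (Fin (n + 1) → ℝ), E = {x | l < G x} := ⟨_, rfl⟩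
      have hEm : MeasurableSet E := by
        rw [hE]
        exact measurableSet_lt measurable_const hGm
      obtain ⟨g1, hg1⟩ : ∃ g1 : ℕ → (Fin (n + 1) → ℝ) → ℂ, g1 = fun i => E.indicator (g i) := ⟨_, rfl⟩
      obtain ⟨g2, hg2⟩ : ∃ g2 : ℕ → (Fin (n + 1) → ℝ) → ℂ, g2 = fun i => Eᶜ.indicator (g i) := ⟨_, rfl⟩
      have g1m : ∀ i, Measurable (g1 i) := fun i => by
        rw [hg1]
        exact (hgm i).indicator hEm
      have g2m : ∀ i, Measurable (g2 i) := fun i => by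
        rw [hg2]
        exact (hgm i).indicator hEm.compl
      have g1i : ∀ i, Integrable (g1 i) := fun i => by
        rw [hg1]
        exact (hg i).indicator hEm
      have g2i : ∀ i, Integrable (g2 i) := fun i => by
        rw [hg2]
        exact (hg i).indicator hEm.compl
      have hsum : ∀ i, g i = fun x => g1 i x + g2 i x := by
        intro i
        rw [hg1, hg2]
        exact (indicator_self_add_compl E (g i)).symm
      refine ⟨fun x => nn I fun i => TT y (S i) (g1 i) t x, ?_, ?_, ?_⟩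
      · exact nn_meas I (fun x i => TT y (S i) (g1 i) t x) fun i => TT_measx hy (g1i i) (S i) t
      · intro x
        have e1 : F x = nn I fun i => TT y (S i) (g1 i) t x + TT y (S i) (g2 i) t x := by
          rw [hF]
          simp only
          congr 1
          ext i
          rw [← TT_add hs hy (g1i i) (g2i i) (S i) ht1 ht2 x, ← hsum i]
        rw [e1]
        refine (nn_add I _ _).trans ?_
        gcongr
        have e2 : ∀ x, ∑ i ∈ I, ‖g2 i x‖ₑ ^ 2 ≤ (l : ℝ≥0∞) ^ 2 := by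
          intro x
          by_cases hx : x ∈ E
          · rw [Finset.sum_eq_zero]
            · exact zero_le
            · intro i _
              rw [hg2]
              simp only
              rw [indicator_of_notMem (by simpa using hx)]
              simp
          · have e3 : ∀ i, g2 i x = g i x := by
              intro i
              rw [hg2]
              exact indicator_of_mem hx _
            simp only [e3]
            rw [← nn_sq I fun i => g i x]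
            gcongr
            rw [hE, mem_ofPred_eq, not_lt, hG] at hx
            exact hx
        have e3 := h3 I g2 g2m g2i S a N hcard hak l e2 t ht1 ht2 x
        rw [← nn_sq I fun i => TT y (S i) (g2 i) t x] at e3
        have e4 : (nn I (fun i => TT y (S i) (g2 i) t x)) ^ 2 ≤ (B * l) ^ 2 := by
          rw [mul_pow, hB2]
          have e5 : (C3 : ℝ≥0∞) * (ENNReal.ofReal a ^ 2 * N * (l : ℝ≥0∞) ^ 2) =
              ((C3 * (a' ^ 2 * N) * l ^ 2 : ℝ≥0) : ℝ≥0∞) := by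
            push_cast
            change (C3 : ℝ≥0∞) * ((a' : ℝ≥0∞) ^ 2 * N * (l : ℝ≥0∞) ^ 2) = _
            ring
          rw [e5] at e3
          exact_mod_cast e3
        exact (pow_le_pow_iff_left₀ (by positivity) (by positivity) two_ne_zero).mp e4
      · simp only [nn_sq]
        rw [lintegral_finsetSum _ fun i _ => ((TT_measx hy (g1i i) (S i) t).enorm.pow_const 2)]
        have e1 : ∫⁻ x in {x | l < G x}, (G x : ℝ≥0∞) ^ 2 = ∑ i ∈ I, ∫⁻ x, ‖g1 i x‖ₑ ^ 2 := by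
          rw [← hE, hG]
          simp only [nn_sq]
          rw [lintegral_finsetSum _ fun i _ => ((hgm i).enorm.pow_const 2)]
          apply Finset.sum_congr rfl
          intro i _
          rw [← lintegral_indicator hEm]
          congr 1
          ext x
          rw [hg1]
          simp only
          by_cases hx : x ∈ E
          · rw [indicator_of_mem hx, indicator_of_mem hx]
          · rw [indicator_of_notMem hx, indicator_of_notMem hx]
            simp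
        rw [e1, Finset.mul_sum]
        apply Finset.sum_le_sum
        intro i hi
        have e2 := h2 (g1 i) (g1i i) (S i) a ha (hak i hi) t ht1 ht2
        refine e2.trans (le_of_eq ?_)
        push_cast
        rfl

end Pool.Agent.Q263.WR
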