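import Pool.Agent.Q263.WR.C
import Pool.Agent.Q79.WR.Marc
set_option autoImplicit false

/-! Blocks of growing size: the sum over the dyadic levels. -/

namespace Pool.Agent.Q263.WR

open MeasureTheory Set Complex Filter Topology
open scoped ENNReal NNReal FourierTransform
open Pool.Agent.Y183.LS (ec ec_norm ec_enorm ec_add ec_cont ec_zero ec_sum dt dt_add dt_comm dt_cont
  dt_cont2 iz dt_add_left convex_sum)
open Pool.Agent.Q89.WS

variable {d : ℕ}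

lemma marc : MARC := fun p hp => by
  obtain ⟨C, hC⟩ := Q79.WR.marc p hp
  exact ⟨C, hC⟩

/-- **the vector valued estimate** for blocks with at most `A m ^ β` cubes at distance `m` from the
origin -/
theorem TT_levels {s : ℝ} (hs : 0 ≤ s) {y z : ℝ → ℂ → ℂ} (hy : Pair s y z) (n : ℕ)
    (p β A A' : ℝ) (hp : 2 ≤ p) (hβ : 0 ≤ β) (hA : 0 < A) (hA' : 0 < A')
    (hsβ : β * (1 / 2 - 1 / p) < s) : ∃ C : ℝ≥0,
    ∀ (I : Finset ℕ) (g : ℕ → (Fin (n + 1) → ℝ) → ℂ), (∀ i, Measurable (g i)) →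
    (∀ i, Integrable (g i)) → ∀ (S : ℕ → Finset (Fin (n + 1) → ℤ)) (m : ℕ → ℝ),
    (∀ i ∈ I, 1 ≤ m i) → (∀ i ∈ I, ((S i).card : ℝ) ≤ A * m i ^ β) →
    (∀ i ∈ I, ∀ k ∈ S i, ak s k ≤ A' * m i ^ (-s)) → ∀ t : ℝ, 1 ≤ t → t ≤ 2 →
    ∫⁻ x, (∑ i ∈ I, ‖TT y (S i) (g i) t x‖ₑ ^ 2) ^ (p / 2) ≤
      C * ∫⁻ x, (∑ i ∈ I, ‖g i x‖ₑ ^ 2) ^ (p / 2) := by
  obtain ⟨C, hC⟩ := TT_group marc hs hy n p hp
  set ε : ℝ := s - β * (1 / 2 - 1 / p) with hε
  have hε0 : 0 < ε := by linarith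
  have hp0 : 0 < p := by linarith
  have hr1 : 1 ≤ p / 2 := by linarith
  have hr0 : 0 ≤ p / 2 - 1 := by linarith
  set ρ : ℝ := (2 : ℝ) ^ (-ε) with hρ
  have hρ0 : 0 < ρ := by positivity
  have hρ1 : ρ < 1 := by
    rw [hρ]
    exact Real.rpow_lt_one_of_one_lt_of_neg (by norm_num) (by linarith)
  set A2 : ℝ := (A + 1) * 2 ^ β with hA2
  have hA2p : 0 < A2 := by positivity
  -- the constants of the levels
  have hlev : ∀ j : ℕ, (A' * (2 : ℝ) ^ (-(j : ℝ) * s)) ^ p *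
      ((⌈A * 2 ^ (((j : ℝ) + 1) * β)⌉₊ : ℝ)) ^ (p / 2 - 1) ≤ A' ^ p * A2 ^ (p / 2 - 1) * (ρ ^ j) ^ p := by
    intro j
    have h1 : (⌈A * 2 ^ (((j : ℝ) + 1) * β)⌉₊ : ℝ) ≤ A2 * 2 ^ ((j : ℝ) * β) := by
      have h2 : (⌈A * (2 : ℝ) ^ (((j : ℝ) + 1) * β)⌉₊ : ℝ) ≤ A * 2 ^ (((j : ℝ) + 1) * β) + 1 :=
        (Nat.ceil_lt_add_one (by positivity)).le
      refine h2.trans ?_
      have h3 : (2 : ℝ) ^ (((j : ℝ) + 1) * β) = 2 ^ β * 2 ^ ((j : ℝ) * β) := by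
        rw [← Real.rpow_add (by norm_num)]
        congr 1
        ring
      have h4 : (1 : ℝ) ≤ 2 ^ β * 2 ^ ((j : ℝ) * β) := by
        rw [← h3]
        exact Real.one_le_rpow (by norm_num) (by positivity)
      rw [h3, hA2]
      nlinarith
    have h5 : 0 ≤ p / 2 - 1 := by linarith
    calc (A' * (2 : ℝ) ^ (-(j : ℝ) * s)) ^ p *
        ((⌈A * 2 ^ (((j : ℝ) + 1) * β)⌉₊ : ℝ)) ^ (p / 2 - 1) ≤
        (A' * (2 : ℝ) ^ (-(j : ℝ) * s)) ^ p * (A2 * 2 ^ ((j : ℝ) * β)) ^ (p / 2 - 1) := by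
          gcongr
      _ = A' ^ p * A2 ^ (p / 2 - 1) * ((2 : ℝ) ^ (-(j : ℝ) * s * p) *
          2 ^ ((j : ℝ) * β * (p / 2 - 1))) := by
          have e1 : ((2 : ℝ) ^ (-(j : ℝ) * s)) ^ p = (2 : ℝ) ^ (-(j : ℝ) * s * p) :=
            (Real.rpow_mul (by norm_num) _ _).symm
          have e2 : ((2 : ℝ) ^ ((j : ℝ) * β)) ^ (p / 2 - 1) = (2 : ℝ) ^ ((j : ℝ) * β * (p / 2 - 1)) :=
            (Real.rpow_mul (by norm_num) _ _).symm
          rw [Real.mul_rpow hA'.le (by positivity), Real.mul_rpow hA2p.le (by positivity), e1, e2]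
          exact mul_mul_mul_comm _ _ _ _
      _ = _ := by
          congr 1
          rw [← Real.rpow_add (by norm_num), ← Real.rpow_natCast ρ j, hρ, ← Real.rpow_mul (by positivity),
            ← Real.rpow_mul (by norm_num)]
          congr 1
          rw [hε]
          field_simp
          ring
  obtain ⟨K, hK⟩ : ∃ K : ℝ≥0, ∀ J : ℕ, ∑ j ∈ Finset.range J, ENNReal.ofReal (ρ ^ j) ≤ K := by
    refine ⟨(1 - ρ)⁻¹.toNNReal, fun J => ?_⟩
    rw [← ENNReal.ofReal_sum_of_nonneg fun j _ => by positivity]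
    apply ENNReal.ofReal_le_ofReal
    have h1 := summable_geometric_of_lt_one hρ0.le hρ1
    have h2 := h1.sum_le_tsum (Finset.range J) fun j _ => by positivity
    rwa [tsum_geometric_of_lt_one hρ0.le hρ1] at h2
  refine ⟨K ^ (p / 2 - 1) * (C * (A' ^ p * A2 ^ (p / 2 - 1)).toNNReal * K), ?_⟩
  intro I g hgm hg S m hm hcard hak t ht1 ht2
  obtain ⟨X, hX⟩ : ∃ X : ℝ≥0∞, X = ∫⁻ x, (∑ i ∈ I, ‖g i x‖ₑ ^ 2) ^ (p / 2) := ⟨_, rfl⟩
  -- the level of a block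
  have hlv : ∀ i ∈ I, ∃ j : ℕ, (2 : ℝ) ^ (j : ℝ) ≤ m i ∧ m i ≤ 2 ^ ((j : ℝ) + 1) := by
    intro i hi
    obtain ⟨j, h1, h2⟩ := exists_nat_pow_near (hm i hi) (by norm_num : (1 : ℝ) < 2)
    refine ⟨j, ?_, ?_⟩
    · rw [Real.rpow_natCast]
      exact h1
    · have e : (j : ℝ) + 1 = ((j + 1 : ℕ) : ℝ) := by push_cast; ring
      rw [e, Real.rpow_natCast]
      exact h2.le
  obtain ⟨L, hL⟩ : ∃ L : ℕ → ℕ, ∀ i ∈ I, (2 : ℝ) ^ (L i : ℝ) ≤ m i ∧ m i ≤ 2 ^ ((L i : ℝ) + 1) := by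
    classical
    refine ⟨fun i => if h : i ∈ I then (hlv i h).choose else 0, fun i hi => ?_⟩
    simp only [hi, dif_pos]
    exact (hlv i hi).choose_spec
  obtain ⟨J, hJ⟩ : ∃ J : ℕ, ∀ i ∈ I, L i < J :=
    ⟨(I.sup L) + 1, fun i hi => Nat.lt_succ_of_le (Finset.le_sup hi)⟩
  obtain ⟨a, ha⟩ : ∃ a : ℕ → (Fin (n + 1) → ℝ) → ℝ≥0∞, a = fun j x =>
    ∑ i ∈ I.filter (fun i => L i = j), ‖TT y (S i) (g i) t x‖ₑ ^ 2 := ⟨_, rfl⟩
  have ham : ∀ j, Measurable (a j) := fun j => by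
    rw [ha]
    exact Finset.measurable_sum _ fun i _ => (TT_measx hy (hg i) (S i) t).enorm.pow_const 2
  have hsum : ∀ x, ∑ i ∈ I, ‖TT y (S i) (g i) t x‖ₑ ^ 2 = ∑ j ∈ Finset.range J, a j x := by
    intro x
    rw [ha]
    simp only
    rw [Finset.sum_fiberwise_of_maps_to]
    intro i hi
    exact Finset.mem_range.mpr (hJ i hi)
  have hgrp : ∀ j : ℕ, ∫⁻ x, a j x ^ (p / 2) ≤
      C * ENNReal.ofReal (A' ^ p * A2 ^ (p / 2 - 1) * (ρ ^ j) ^ p) * X := by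
    intro j
    have h1 := hC (I.filter (fun i => L i = j)) g hgm hg S (A' * (2 : ℝ) ^ (-(j : ℝ) * s))
      ⌈A * 2 ^ (((j : ℝ) + 1) * β)⌉₊ (by positivity) (Nat.ceil_pos.mpr (by positivity)) ?_ ?_ t ht1 ht2
    · rw [ha]
      refine h1.trans ?_
      rw [hX]
      refine mul_le_mul' (mul_le_mul' le_rfl (ENNReal.ofReal_le_ofReal (hlev j))) ?_
      gcongr
      exact Finset.filter_subset _ _
    · intro i hi
      rw [Finset.mem_filter] at hi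
      have h2 : ((S i).card : ℝ) ≤ (⌈A * (2 : ℝ) ^ (((j : ℝ) + 1) * β)⌉₊ : ℝ) := by
        refine (hcard i hi.1).trans (le_trans ?_ (Nat.le_ceil _))
        have h3 := (hL i hi.1).2
        rw [hi.2] at h3
        have h4 := hm i hi.1
        rw [Real.rpow_mul (by norm_num)]
        gcongr
      exact_mod_cast h2
    · intro i hi k hk
      rw [Finset.mem_filter] at hi
      refine (hak i hi.1 k hk).trans ?_
      have h3 := (hL i hi.1).1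
      rw [hi.2] at h3
      have h4 : m i ^ (-s) ≤ ((2 : ℝ) ^ (j : ℝ)) ^ (-s) :=
        Real.rpow_le_rpow_of_nonpos (by positivity) h3 (by linarith)
      rw [← Real.rpow_mul (by norm_num)] at h4
      have e : (j : ℝ) * -s = -(j : ℝ) * s := by ring
      rw [e] at h4
      gcongr
  have hpt : ∀ x, (∑ j ∈ Finset.range J, a j x) ^ (p / 2) ≤ (K : ℝ≥0∞) ^ (p / 2 - 1) *
      ∑ j ∈ Finset.range J, ENNReal.ofReal (ρ ^ j) * ((ENNReal.ofReal (ρ ^ j))⁻¹ * a j x) ^ (p / 2) := by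
    intro x
    have h1 := convex_sum (Finset.range J) (fun j => ENNReal.ofReal (ρ ^ j))
      (fun j => (ENNReal.ofReal (ρ ^ j))⁻¹ * a j x) (p / 2) hr1 (fun j _ => ENNReal.ofReal_ne_top)
    have e1 : ∀ j, ENNReal.ofReal (ρ ^ j) * ((ENNReal.ofReal (ρ ^ j))⁻¹ * a j x) = a j x := by
      intro j
      rw [← mul_assoc, ENNReal.mul_inv_cancel, one_mul]
      · exact (ENNReal.ofReal_pos.mpr (by positivity)).ne'
      · exact ENNReal.ofReal_ne_top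
    simp only [e1] at h1
    refine h1.trans ?_
    gcongr
    exact hK J
  have hfin : ∀ j, ENNReal.ofReal (ρ ^ j) * (((ENNReal.ofReal (ρ ^ j))⁻¹) ^ (p / 2) *
      (C * ENNReal.ofReal (A' ^ p * A2 ^ (p / 2 - 1) * (ρ ^ j) ^ p))) ≤
      (C * (A' ^ p * A2 ^ (p / 2 - 1)).toNNReal) * ENNReal.ofReal (ρ ^ j) := by
    intro j
    have hj : 0 < ρ ^ j := by positivity
    have hj1 : ρ ^ j ≤ 1 := pow_le_one₀ hρ0.le hρ1.le
    have e1 : ((ENNReal.ofReal (ρ ^ j))⁻¹) ^ (p / 2) * ENNReal.ofReal ((ρ ^ j) ^ p) ≤ 1 := by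
      rw [← ENNReal.ofReal_inv_of_pos hj, ENNReal.ofReal_rpow_of_pos (by positivity),
        ← ENNReal.ofReal_mul (by positivity), ENNReal.ofReal_le_one, Real.inv_rpow hj.le,
        ← Real.rpow_neg hj.le, ← Real.rpow_add hj]
      apply Real.rpow_le_one hj.le hj1
      linarith
    rw [ENNReal.ofReal_mul (by positivity)]
    change _ ≤ (C * ENNReal.ofReal (A' ^ p * A2 ^ (p / 2 - 1))) * ENNReal.ofReal (ρ ^ j)
    calc _ = (C * ENNReal.ofReal (A' ^ p * A2 ^ (p / 2 - 1))) * ENNReal.ofReal (ρ ^ j) *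
        (((ENNReal.ofReal (ρ ^ j))⁻¹) ^ (p / 2) * ENNReal.ofReal ((ρ ^ j) ^ p)) := by ring
      _ ≤ (C * ENNReal.ofReal (A' ^ p * A2 ^ (p / 2 - 1))) * ENNReal.ofReal (ρ ^ j) * 1 := by
          gcongr
      _ = _ := mul_one _
  have hmx : ∀ j, Measurable fun x => ENNReal.ofReal (ρ ^ j) *
      ((ENNReal.ofReal (ρ ^ j))⁻¹ * a j x) ^ (p / 2) := fun j =>
    (((ham j).const_mul _).pow_const (p / 2)).const_mul _
  have hr0 : 0 ≤ p / 2 := by linarith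
  calc ∫⁻ x, (∑ i ∈ I, ‖TT y (S i) (g i) t x‖ₑ ^ 2) ^ (p / 2) =
      ∫⁻ x, (∑ j ∈ Finset.range J, a j x) ^ (p / 2) := by
        simp only [hsum]
    _ ≤ ∫⁻ x, (K : ℝ≥0∞) ^ (p / 2 - 1) * ∑ j ∈ Finset.range J, ENNReal.ofReal (ρ ^ j) *
        ((ENNReal.ofReal (ρ ^ j))⁻¹ * a j x) ^ (p / 2) := lintegral_mono hpt
    _ = (K : ℝ≥0∞) ^ (p / 2 - 1) * ∑ j ∈ Finset.range J, ∫⁻ x, ENNReal.ofReal (ρ ^ j) *
        ((ENNReal.ofReal (ρ ^ j))⁻¹ * a j x) ^ (p / 2) := by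
        rw [lintegral_const_mul _ (Finset.measurable_sum _ fun j _ => hmx j),
          lintegral_finsetSum _ fun j _ => hmx j]
    _ = (K : ℝ≥0∞) ^ (p / 2 - 1) * ∑ j ∈ Finset.range J, ENNReal.ofReal (ρ ^ j) *
        (((ENNReal.ofReal (ρ ^ j))⁻¹) ^ (p / 2) * ∫⁻ x, a j x ^ (p / 2)) := by
        congr 1
        apply Finset.sum_congr rfl
        intro j _
        rw [lintegral_const_mul _ (((ham j).const_mul _).pow_const (p / 2))]
        congr 1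
        simp only [ENNReal.mul_rpow_of_nonneg _ _ hr0]
        rw [lintegral_const_mul _ ((ham j).pow_const (p / 2))]
    _ ≤ (K : ℝ≥0∞) ^ (p / 2 - 1) * ∑ j ∈ Finset.range J, ENNReal.ofReal (ρ ^ j) *
        (((ENNReal.ofReal (ρ ^ j))⁻¹) ^ (p / 2) *
          (C * ENNReal.ofReal (A' ^ p * A2 ^ (p / 2 - 1) * (ρ ^ j) ^ p) * X)) := by
        gcongr with j _
        exact hgrp j
    _ = (K : ℝ≥0∞) ^ (p / 2 - 1) * ((∑ j ∈ Finset.range J, ENNReal.ofReal (ρ ^ j) *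
        (((ENNReal.ofReal (ρ ^ j))⁻¹) ^ (p / 2) *
          (C * ENNReal.ofReal (A' ^ p * A2 ^ (p / 2 - 1) * (ρ ^ j) ^ p)))) * X) := by
        rw [Finset.sum_mul]
        congr 1
        apply Finset.sum_congr rfl
        intro j _
        ring
    _ ≤ (K : ℝ≥0∞) ^ (p / 2 - 1) * ((∑ j ∈ Finset.range J,
        (C * (A' ^ p * A2 ^ (p / 2 - 1)).toNNReal) * ENNReal.ofReal (ρ ^ j)) * X) := by
        exact mul_le_mul' le_rfl (mul_le_mul' (Finset.sum_le_sum fun j _ => hfin j) le_rfl)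
    _ ≤ (K : ℝ≥0∞) ^ (p / 2 - 1) * (((C * (A' ^ p * A2 ^ (p / 2 - 1)).toNNReal) * K) * X) := by
        rw [← Finset.mul_sum]
        gcongr
        exact hK J
    _ = _ := by
        rw [hX]
        push_cast
        rw [ENNReal.coe_rpow_of_nonneg _ (by linarith : 0 ≤ p / 2 - 1)]
        ring

end Pool.Agent.Q263.WR
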