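import Pool.Agent.Q263.WR.D
set_option autoImplicit false

/-! The blocks of a function. -/

namespace Pool.Agent.Q263.WR

open MeasureTheory Set Complex Filter Topology
open scoped ENNReal NNReal FourierTransform
open Pool.Agent.Y183.LS (ec ec_norm ec_enorm ec_add ec_cont ec_zero ec_sum dt dt_add dt_comm dt_cont
  dt_cont2 iz dt_add_left convex_sum)
open Pool.Agent.Q89.WS

variable {d : ℕ}

/-- the neighbours of a finite set -/
noncomputable def fat (S : Finset (Fin d → ℤ)) : Finset (Fin d → ℤ) :=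
  S.biUnion fun l => Fintype.piFinset fun j => Finset.Icc (l j - 1) (l j + 1)

lemma mem_fat {S : Finset (Fin d → ℤ)} {k : Fin d → ℤ} :
    k ∈ fat S ↔ ∃ l ∈ S, ∀ j, |k j - l j| ≤ 1 := by
  unfold fat
  rw [Finset.mem_biUnion]
  constructor
  · rintro ⟨l, hl, h⟩
    refine ⟨l, hl, fun j => ?_⟩
    rw [Fintype.mem_piFinset] at h
    have := Finset.mem_Icc.mp (h j)
    rw [abs_le]
    omega
  · rintro ⟨l, hl, h⟩
    refine ⟨l, hl, ?_⟩
    rw [Fintype.mem_piFinset]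
    intro j
    have := abs_le.mp (h j)
    rw [Finset.mem_Icc]
    omega

lemma fat_card (S : Finset (Fin d → ℤ)) : (fat S).card ≤ S.card * 3 ^ d := by
  unfold fat
  refine Finset.card_biUnion_le_card_mul _ _ _ fun l _ => ?_
  rw [Fintype.card_piFinset]
  have : ∀ j, (Finset.Icc (l j - 1) (l j + 1)).card = 3 := by
    intro j
    rw [Int.card_Icc]
    omega
  simp only [this, Finset.prod_const, Finset.card_univ, Fintype.card_fin, le_refl]

lemma Ps_fat {S : Finset (Fin d → ℤ)} {ξ : Fin d → ℝ} (h : Ps S ξ ≠ 0) : Ps (fat S) ξ = 1 := by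
  obtain ⟨l, hl, hl2⟩ := Finset.exists_ne_zero_of_sum_ne_zero h
  apply le_antisymm (BB_le _ _)
  obtain ⟨J, hJ⟩ := (BB_sum_one ξ).exists
  rw [← hJ]
  have h1 : ∀ k : Fin d → ℤ, BB k ξ ≠ 0 → k ∈ fat S := by
    intro k hk
    rw [mem_fat]
    refine ⟨l, hl, fun j => ?_⟩
    have h2 := BB_ne hk j
    have h3 := BB_ne hl2 j
    have h4 : |((k j - l j : ℤ) : ℝ)| < 2 := by
      push_cast
      have : (k j : ℝ) - l j = (ξ j - l j) - (ξ j - k j) := by ring
      rw [this]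
      refine (abs_sub _ _).trans_lt ?_
      linarith
    have h5 : |k j - l j| < 2 := by exact_mod_cast h4
    omega
  calc ∑ k ∈ box d (2 ^ J), BB k ξ = ∑ k ∈ (box d (2 ^ J)).filter (fun k => k ∈ fat S), BB k ξ := by
        symm
        apply Finset.sum_filter_of_ne
        intro k _ hk
        exact h1 k hk
    _ ≤ ∑ k ∈ fat S, BB k ξ := by
        apply Finset.sum_le_sum_of_subset_of_nonneg
        · intro k hk
          exact (Finset.mem_filter.mp hk).2
        · intro k _ _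
          exact BB_nonneg k ξ

lemma Ps_mul (S : Finset (Fin d → ℤ)) (ξ : Fin d → ℝ) : Ps (fat S) ξ * Ps S ξ = Ps S ξ := by
  by_cases h : Ps S ξ = 0
  · rw [h, mul_zero]
  · rw [Ps_fat h, one_mul]

/-- the part of a function with frequencies in the cubes of a block -/
noncomputable def PB (S : Finset (Fin d → ℤ)) (f : (Fin d → ℝ) → ℂ) (x : Fin d → ℝ) : ℂ :=
  ∑ k ∈ S, cnv (KM w0 k) (cnv (KM w0 k) f) x

lemma PB_int {f : (Fin d → ℝ) → ℂ} (hf : Integrable f) (S : Finset (Fin d → ℤ)) :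
    Integrable (PB S f) := by
  unfold PB
  exact integrable_finsetSum S fun k _ => cnv_int (KM_int w0 w0_cd k) (cnv_int (KM_int w0 w0_cd k) hf)

lemma PB_cont {f : (Fin d → ℝ) → ℂ} (hf : Integrable f) (S : Finset (Fin d → ℤ)) :
    Continuous (PB S f) := by
  obtain ⟨B, hB⟩ := KM_bdd w0 w0_cd d
  unfold PB
  exact continuous_finsetSum _ fun k _ => cnv_cont (KM_cont w0 w0_cd k) B (hB k)
    (cnv_int (KM_int w0 w0_cd k) hf)

lemma PB_ft {f : (Fin d → ℝ) → ℂ} (hf : Integrable f) (S : Finset (Fin d → ℤ)) (ξ : Fin d → ℝ) :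
    ft (PB S f) ξ = (Ps S ξ : ℂ) * ft f ξ := by
  have h1 : ∀ k : Fin d → ℤ, Integrable (cnv (KM w0 k) (cnv (KM w0 k) f)) := fun k =>
    cnv_int (KM_int w0 w0_cd k) (cnv_int (KM_int w0 w0_cd k) hf)
  have h2 : ft (PB S f) ξ = ∑ k ∈ S, ft (cnv (KM w0 k) (cnv (KM w0 k) f)) ξ := by
    unfold ft PB
    simp only [Finset.mul_sum]
    rw [integral_finsetSum _ fun k _ => mul_ec_int (h1 k) ξ]
  rw [h2]
  unfold Ps
  push_cast
  rw [Finset.sum_mul]
  apply Finset.sum_congr rfl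
  intro k _
  rw [cnv_ft (KM_int w0 w0_cd k) (cnv_int (KM_int w0 w0_cd k) hf), cnv_ft (KM_int w0 w0_cd k) hf,
    KM_ft w0 w0_cd]
  unfold BB
  push_cast
  ring

lemma kr_full (x : ℝ) : ∫ η : ℝ, ec (x * η) * ((b1 η * w0 η : ℝ) : ℂ) = kr w0 x := by
  unfold kr
  rw [intervalIntegral.integral_of_le (by norm_num), ← integral_Icc_eq_integral_Ioc,
    setIntegral_eq_integral_of_forall_compl_eq_zero]
  · congr 1
    ext v
    rw [mul_comm]
  · intro v hv
    have : 1 ≤ |v| := by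
      by_contra h
      push Not at h
      exact hv ⟨(abs_lt.mp h).1.le, (abs_lt.mp h).2.le⟩
    rw [b1_out this]
    simp

lemma SB_cont : Continuous (SB w0 : (Fin d → ℝ) → ℝ) := by
  unfold SB w0
  apply continuous_finsetProd
  intro i _
  exact (b1_cont.comp (continuous_apply i)).mul continuous_const

lemma SB_int (k : Fin d → ℤ) : Integrable fun ξ : Fin d → ℝ => (SB w0 (ξ - iz k) : ℂ) := by
  have h : Integrable (fun ξ : Fin d → ℝ => (SB w0 ξ : ℂ)) := by
    have hs : HasCompactSupport (fun ξ : Fin d → ℝ => (SB w0 ξ : ℂ)) := by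
      apply HasCompactSupport.intro (K := Icc (fun _ => (-1 : ℝ)) (fun _ => 1)) isCompact_Icc
      intro ξ hξ
      have : ∃ i, 1 ≤ |ξ i| := by
        by_contra hc
        push Not at hc
        exact hξ ⟨fun i => (abs_lt.mp (hc i)).1.le, fun i => (abs_lt.mp (hc i)).2.le⟩
      obtain ⟨i, hi⟩ := this
      unfold SB
      rw [Finset.prod_eq_zero (Finset.mem_univ i) (by rw [b1_out hi, zero_mul])]
      simp
    have hc : Continuous (fun ξ : Fin d → ℝ => (SB w0 ξ : ℂ)) :=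
      Complex.continuous_ofReal.comp SB_cont
    exact hc.integrable_of_hasCompactSupport hs
  exact h.comp_sub_right (iz k)

lemma Kn_SB (k : Fin d → ℤ) (x : Fin d → ℝ) :
    Kn (fun ξ => (SB w0 (ξ - iz k) : ℂ)) x = KM w0 k x := by
  unfold Kn
  have h1 : ∀ ξ : Fin d → ℝ, ec (dt x ξ) * (SB w0 (ξ - iz k) : ℂ) =
      (fun η => ec (dt x (iz k)) * (ec (dt x η) * (SB w0 η : ℂ))) (ξ - iz k) := by
    intro ξ
    simp only
    rw [← mul_assoc, ← ec_add, ← dt_add]
    congr 3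
    abel
  simp only [h1]
  rw [integral_sub_right_eq_self (fun η => ec (dt x (iz k)) * (ec (dt x η) * (SB w0 η : ℂ))),
    integral_const_mul]
  unfold KM KR
  rw [dt_comm]
  congr 1
  have h2 : ∀ η : Fin d → ℝ, ec (dt x η) * (SB w0 η : ℂ) =
      ∏ i, (ec (x i * η i) * ((b1 (η i) * w0 (η i) : ℝ) : ℂ)) := by
    intro η
    unfold SB dt
    rw [ec_sum, Complex.ofReal_prod, ← Finset.prod_mul_distrib]
  simp only [h2]
  rw [integral_fintype_prod_volume_eq_prod (𝕜 := ℂ)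
    (fun i η => ec (x i * η) * ((b1 η * w0 η : ℝ) : ℂ))]
  apply Finset.prod_congr rfl
  intro i _
  exact kr_full (x i)

lemma cnv_inv {h : (Fin d → ℝ) → ℂ} (hh : Integrable h) (k : Fin d → ℤ) (x : Fin d → ℝ) :
    cnv (KM w0 k) h x = ∫ ξ, ec (dt x ξ) * ((SB w0 (ξ - iz k) : ℂ) * ft h ξ) := by
  rw [← rep (SB_int k) hh x]
  simp only [Kn_SB]
  unfold cnv
  have := integral_sub_left_eq_self (fun v => KM w0 k v * h (x - v)) volume x
  rw [← this]
  congr 1
  ext z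
  simp

lemma PB_inv {f : (Fin d → ℝ) → ℂ} (hf : Integrable f) (S : Finset (Fin d → ℤ)) (x : Fin d → ℝ) :
    PB S f x = ∫ ξ, ec (dt x ξ) * ((Ps S ξ : ℂ) * ft f ξ) := by
  have hi : ∀ k : Fin d → ℤ, Integrable (cnv (KM w0 k) f) := fun k => cnv_int (KM_int w0 w0_cd k) hf
  have h1 : ∀ k : Fin d → ℤ, Integrable fun ξ : Fin d → ℝ => ec (dt x ξ) * ((BB k ξ : ℂ) * ft f ξ) := by
    intro k
    have h2 := BBft_int hf k (N := fun _ => 1) measurable_const (A := 1) (M := 0) zero_le_one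
      (by intro ξ; simp) x
    simpa using h2
  have e1 : PB S f x = ∑ k ∈ S, ∫ ξ, ec (dt x ξ) * ((BB k ξ : ℂ) * ft f ξ) := by
    unfold PB
    apply Finset.sum_congr rfl
    intro k _
    rw [cnv_inv (hi k)]
    congr 1
    ext ξ
    rw [cnv_ft (KM_int w0 w0_cd k) hf, KM_ft w0 w0_cd]
    unfold BB
    push_cast
    ring
  rw [e1, ← integral_finsetSum _ fun k _ => h1 k]
  congr 1
  ext ξ
  unfold Ps
  push_cast
  rw [Finset.sum_mul, Finset.mul_sum]

lemma TT_PB {s : ℝ} (hs : 0 ≤ s) {y z : ℝ → ℂ → ℂ} (hy : Pair s y z) {n : ℕ}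
    {f : (Fin (n + 1) → ℝ) → ℂ} (hf : Integrable f) (S : Finset (Fin (n + 1) → ℤ)) {t : ℝ}
    (ht1 : 1 ≤ t) (ht2 : t ≤ 2) (x : Fin (n + 1) → ℝ) :
    TT y (fat S) (PB S f) t x = ∫ ξ, ec (dt x ξ) * (y t (nq ξ) * ((Ps S ξ : ℂ) * ft f ξ)) := by
  rw [TT_eq hs hy (PB_int hf S) (fat S) ht1 ht2 x]
  congr 1
  ext ξ
  rw [PB_ft hf, ← mul_assoc ((Ps (fat S) ξ : ℂ)), ← Complex.ofReal_mul, Ps_mul]

end Pool.Agent.Q263.WR
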