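import Pool.Agent.Q89.WS.C
import Pool.Agent.Q26.WR.Khu
import Pool.Agent.Q26.WR.Khl
set_option autoImplicit false

/-! Moments and tails of norms of random series. -/

namespace Pool.Agent.Q263.WR

open MeasureTheory Set Filter Topology ProbabilityTheory
open scoped ENNReal NNReal
open Pool.Agent.Q89.WS (wjens)

/-- the inequality of Minkowski for integrals, in a form with a majorant -/
theorem jen {Ω Z : Type*} [MeasurableSpace Ω] [MeasurableSpace Z] (P : Measure Ω)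
    [IsProbabilityMeasure P] (ν : Measure Z) [SFinite ν] (p q : ℝ) (hp : 1 ≤ p) (hq : p ≤ q)
    (F : Ω → Z → ℝ≥0∞) (hF : Measurable (Function.uncurry F)) (S : Z → ℝ≥0∞) (hS : Measurable S)
    (hSt : ∀ z, S z ≠ ∞) (K : ℝ≥0∞) (hK : K ≠ ∞) (hK0 : K ≠ 0)
    (h : ∀ z, ∫⁻ ω, F ω z ^ q ∂P ≤ (K * S z) ^ q) :
    ∫⁻ ω, (∫⁻ z, F ω z ^ p ∂ν) ^ (q / p) ∂P ≤ K ^ q * (∫⁻ z, S z ^ p ∂ν) ^ (q / p) := by
  have hp0 : 0 < p := by linarith
  have hq0 : 0 < q := by linarith
  have hr : 1 ≤ q / p := by rwa [one_le_div hp0]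
  by_cases hI : ∫⁻ z, S z ^ p ∂ν = ∞
  · rw [hI, ENNReal.top_rpow_of_pos (by positivity), ENNReal.mul_top]
    · exact le_top
    · exact (ENNReal.rpow_pos_of_nonneg (pos_iff_ne_zero.mpr hK0) hq0.le).ne'
  have hFz : ∀ z, Measurable fun ω => F ω z := fun z => hF.comp (measurable_id.prodMk measurable_const)
  have hFω : ∀ ω, Measurable (F ω) := fun ω => hF.comp (measurable_const.prodMk measurable_id)
  have h0 : ∀ᵐ ω ∂P, ∀ᵐ z ∂ν, S z = 0 → F ω z = 0 := by
    rw [Measure.ae_ae_comm]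
    · filter_upwards with z
      by_cases hz : S z = 0
      · have h1 := h z
        rw [hz, mul_zero, ENNReal.zero_rpow_of_pos hq0, nonpos_iff_eq_zero,
          lintegral_eq_zero_iff ((hFz z).pow_const q)] at h1
        filter_upwards [h1] with ω hω _
        simp only [Pi.zero_apply] at hω
        rwa [ENNReal.rpow_eq_zero_iff_of_pos hq0] at hω
      · filter_upwards with ω h'
        exact absurd h' hz
    · have e : {x : Ω × Z | S x.2 = 0 → F x.1 x.2 = 0} =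
          {x : Ω × Z | S x.2 = 0}ᶜ ∪ {x : Ω × Z | F x.1 x.2 = 0} := by
        ext x
        simp only [mem_ofPred_eq, mem_union, mem_compl_iff]
        tauto
      rw [e]
      exact ((hS.comp measurable_snd) (measurableSet_singleton 0)).compl.union
        (hF (measurableSet_singleton 0))
  have hw : Measurable fun z => S z ^ p := hS.pow_const p
  have hG : ∀ ω, Measurable fun z => (F ω z / S z) ^ p := fun ω => ((hFω ω).div hS).pow_const p
  have h1 : ∀ᵐ ω ∂P, (∫⁻ z, F ω z ^ p ∂ν) ^ (q / p) ≤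
      (∫⁻ z, S z ^ p ∂ν) ^ (q / p - 1) * ∫⁻ z, S z ^ p * (F ω z / S z) ^ q ∂ν := by
    filter_upwards [h0] with ω hω
    have e1 : ∫⁻ z, F ω z ^ p ∂ν = ∫⁻ z, S z ^ p * (F ω z / S z) ^ p ∂ν := by
      apply lintegral_congr_ae
      filter_upwards [hω] with z hz
      rw [← ENNReal.mul_rpow_of_nonneg _ _ hp0.le]
      congr 1
      by_cases hz0 : S z = 0
      · rw [hz hz0, hz0]
        simp
      · rw [mul_comm, ENNReal.div_mul_cancel hz0 (hSt z)]
    rw [e1]
    refine (wjens ν _ _ hw (hG ω) (q / p) hr).trans (le_of_eq ?_)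
    congr 1
    apply lintegral_congr
    intro z
    rw [← ENNReal.rpow_mul]
    congr 2
    field_simp
  have hm : Measurable (Function.uncurry fun (ω : Ω) (z : Z) => S z ^ p * (F ω z / S z) ^ q) :=
    ((hS.comp measurable_snd).pow_const p).mul ((hF.div (hS.comp measurable_snd)).pow_const q)
  calc ∫⁻ ω, (∫⁻ z, F ω z ^ p ∂ν) ^ (q / p) ∂P ≤
      ∫⁻ ω, (∫⁻ z, S z ^ p ∂ν) ^ (q / p - 1) * ∫⁻ z, S z ^ p * (F ω z / S z) ^ q ∂ν ∂P :=
        lintegral_mono_ae h1
    _ = (∫⁻ z, S z ^ p ∂ν) ^ (q / p - 1) * ∫⁻ ω, ∫⁻ z, S z ^ p * (F ω z / S z) ^ q ∂ν ∂P :=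
        lintegral_const_mul' _ _ (ENNReal.rpow_ne_top_of_nonneg (by linarith) hI)
    _ = (∫⁻ z, S z ^ p ∂ν) ^ (q / p - 1) * ∫⁻ z, ∫⁻ ω, S z ^ p * (F ω z / S z) ^ q ∂P ∂ν := by
        rw [lintegral_lintegral_swap hm.aemeasurable]
    _ ≤ (∫⁻ z, S z ^ p ∂ν) ^ (q / p - 1) * ∫⁻ z, K ^ q * S z ^ p ∂ν := by
        gcongr with z
        by_cases hz0 : S z = 0
        · rw [hz0, ENNReal.zero_rpow_of_pos hp0]
          simp
        · rw [lintegral_const_mul' _ _ (ENNReal.rpow_ne_top_of_nonneg hp0.le (hSt z))]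
          have e2 : ∫⁻ ω, (F ω z / S z) ^ q ∂P ≤ K ^ q := by
            simp only [div_eq_mul_inv, ENNReal.mul_rpow_of_nonneg _ _ hq0.le]
            rw [lintegral_mul_const _ ((hFz z).pow_const q)]
            calc (∫⁻ ω, F ω z ^ q ∂P) * (S z)⁻¹ ^ q ≤ (K * S z) ^ q * (S z)⁻¹ ^ q := by
                  gcongr
                  exact h z
              _ = K ^ q := by
                  rw [← ENNReal.mul_rpow_of_nonneg _ _ hq0.le, mul_assoc,
                    ENNReal.mul_inv_cancel hz0 (hSt z), mul_one]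
          rw [mul_comm (K ^ q)]
          gcongr
    _ = K ^ q * (∫⁻ z, S z ^ p ∂ν) ^ (q / p) := by
        rw [lintegral_const_mul' _ _ (ENNReal.rpow_ne_top_of_nonneg hq0.le hK)]
        have e3 : (∫⁻ z, S z ^ p ∂ν) ^ (q / p) =
            (∫⁻ z, S z ^ p ∂ν) ^ (q / p - 1) * ∫⁻ z, S z ^ p ∂ν := by
          conv_rhs => rw [← ENNReal.rpow_one (∫⁻ z, S z ^ p ∂ν), ← ENNReal.rpow_mul, one_mul]
          rw [← ENNReal.rpow_add_of_nonneg _ _ (by linarith) zero_le_one]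
          congr 1
          ring
        rw [e3]
        ring

/-- random series with values in `L^p` -/
theorem series {Ω Z : Type*} [MeasurableSpace Ω] [MeasurableSpace Z] (P : Measure Ω)
    [IsProbabilityMeasure P] (X : ℕ → Ω → ℂ) (hm : ∀ i, Measurable (X i)) (hi : iIndepFun X P)
    (hb : ∀ i ω, ‖X i ω‖ ≤ 1) (h0 : ∀ i, ∫ ω, X i ω ∂P = 0) (ν : Measure Z) [SFinite ν] (p q : ℝ)
    (hp : 1 ≤ p) (hq : p ≤ q) (N : ℕ) (a : ℕ → Z → ℂ) (ha : ∀ i, Measurable (a i)) :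
    ∫⁻ ω, (∫⁻ z, ‖∑ i ∈ Finset.range N, X i ω * a i z‖ₑ ^ p ∂ν) ^ (q / p) ∂P ≤
      ENNReal.ofReal (8 * Real.sqrt q) ^ q *
        (∫⁻ z, (∑ i ∈ Finset.range N, ‖a i z‖ₑ ^ 2) ^ (p / 2) ∂ν) ^ (q / p) := by
  have hq0 : 0 < q := by linarith
  have hSm : Measurable fun z => (∑ i ∈ Finset.range N, ‖a i z‖ₑ ^ 2) ^ (1 / 2 : ℝ) :=
    (Finset.measurable_sum _ fun i _ => (ha i).enorm.pow_const 2).pow_const _
  have e1 : ∀ z, (∑ i ∈ Finset.range N, ‖a i z‖ₑ ^ 2) ^ (p / 2) =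
      ((∑ i ∈ Finset.range N, ‖a i z‖ₑ ^ 2) ^ (1 / 2 : ℝ)) ^ p := by
    intro z
    rw [← ENNReal.rpow_mul]
    congr 1
    ring
  simp only [e1]
  refine jen P ν p q hp hq (fun ω z => ‖∑ i ∈ Finset.range N, X i ω * a i z‖ₑ) ?_ _ hSm ?_ _
    ENNReal.ofReal_ne_top ?_ ?_
  · apply Measurable.enorm
    apply Finset.measurable_sum
    intro i _
    exact ((hm i).comp measurable_fst).mul ((ha i).comp measurable_snd)
  · intro z
    apply ENNReal.rpow_ne_top_of_nonneg (by norm_num)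
    exact (ENNReal.sum_lt_top.mpr fun i _ => ENNReal.pow_lt_top enorm_lt_top).ne
  · apply (ENNReal.ofReal_pos.mpr _).ne'
    have := Real.sqrt_pos.mpr hq0
    positivity
  · intro z
    have h := Pool.Agent.Q26.WR.khu P X hm hi hb h0 q (hp.trans hq) N (fun i => a i z)
    refine h.trans (le_of_eq ?_)
    rw [ENNReal.mul_rpow_of_nonneg _ _ hq0.le, ← ENNReal.rpow_mul]
    congr 2
    ring

/-- the tail from the moments -/
theorem tail {Ω : Type*} [MeasurableSpace Ω] (P : Measure Ω) [IsProbabilityMeasure P]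
    (Z : Ω → ℝ≥0∞) (hZ : Measurable Z) (p K : ℝ) (M : ℝ≥0∞) (hp : 1 ≤ p) (hK : 0 < K)
    (h : ∀ q : ℝ, p ≤ q → ∫⁻ ω, Z ω ^ (q / p) ∂P ≤
      ENNReal.ofReal (K * Real.sqrt q) ^ q * M ^ (q / p)) (l : ℝ) (hl : 0 ≤ l) :
    P {ω | ENNReal.ofReal l ^ p * M < Z ω} ≤
      ENNReal.ofReal (Real.exp (p - l ^ 2 / (Real.exp 1 * K) ^ 2)) := by
  have hp0 : 0 < p := by linarith
  set q : ℝ := l ^ 2 / (Real.exp 1 * K) ^ 2 with hq
  have hE : 0 < Real.exp 1 * K := by positivity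
  by_cases hqp : q ≤ p
  · refine prob_le_one.trans ?_
    rw [ENNReal.one_le_ofReal]
    exact Real.one_le_exp (by linarith)
  push Not at hqp
  have hq0 : 0 < q := by linarith
  have hl0 : 0 < l := by
    rcases hl.eq_or_lt with h1 | h1
    · rw [← h1] at hq
      simp only [ne_eq, OfNat.ofNat_ne_zero, not_false_eq_true, zero_pow, zero_div] at hq
      linarith
    · exact h1
  have hsq : Real.sqrt q = l / (Real.exp 1 * K) := by
    rw [hq, ← div_pow, Real.sqrt_sq (by positivity)]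
  have h1 := h q hqp.le
  have hKs : K * Real.sqrt q = l / Real.exp 1 := by
    rw [hsq]
    field_simp
  rw [hKs] at h1
  have hr0 : 0 < q / p := by positivity
  -- the case of an infinite constant
  by_cases hMt : M = ∞
  · have : {ω | ENNReal.ofReal l ^ p * M < Z ω} = ∅ := by
      rw [hMt, ENNReal.mul_top]
      · ext ω
        simp
      · exact (ENNReal.rpow_pos (ENNReal.ofReal_pos.mpr hl0) ENNReal.ofReal_ne_top).ne'
    rw [this, measure_empty]
    exact zero_le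
  by_cases hM0 : M = 0
  · rw [hM0, ENNReal.zero_rpow_of_pos hr0, mul_zero, nonpos_iff_eq_zero,
      lintegral_eq_zero_iff (hZ.pow_const _)] at h1
    have h2 : P {ω | ENNReal.ofReal l ^ p * M < Z ω} = 0 := by
      rw [hM0, mul_zero]
      have h3 : ∀ᵐ ω ∂P, ¬ 0 < Z ω := by
        filter_upwards [h1] with ω hω
        simp only [Pi.zero_apply] at hω
        rw [ENNReal.rpow_eq_zero_iff_of_pos hr0] at hω
        rw [hω]
        exact lt_irrefl 0
      rw [ae_iff] at h3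
      simpa only [not_not] using h3
    rw [h2]
    exact zero_le
  set T : ℝ≥0∞ := (ENNReal.ofReal l ^ p * M) ^ (q / p) with hT
  have hT1 : T = ENNReal.ofReal l ^ q * M ^ (q / p) := by
    rw [hT, ENNReal.mul_rpow_of_nonneg _ _ hr0.le, ← ENNReal.rpow_mul]
    congr 2
    field_simp
  have hT0 : T ≠ 0 := by
    rw [hT1]
    apply mul_ne_zero
    · exact (ENNReal.rpow_pos (ENNReal.ofReal_pos.mpr hl0) ENNReal.ofReal_ne_top).ne'
    · exact (ENNReal.rpow_pos (pos_iff_ne_zero.mpr hM0) hMt).ne'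
  have hTt : T ≠ ∞ := by
    rw [hT1]
    exact ENNReal.mul_ne_top (ENNReal.rpow_ne_top_of_nonneg hq0.le ENNReal.ofReal_ne_top)
      (ENNReal.rpow_ne_top_of_nonneg hr0.le hMt)
  have h2 : T * P {ω | ENNReal.ofReal l ^ p * M < Z ω} ≤
      ENNReal.ofReal (l / Real.exp 1) ^ q * M ^ (q / p) := by
    refine le_trans ?_ h1
    refine le_trans ?_ (mul_meas_ge_le_lintegral (hZ.pow_const (q / p)) T)
    gcongr
    rename_i ω
    intro hω
    rw [hT]
    exact ENNReal.rpow_le_rpow hω.le hr0.le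
  have h3 : ENNReal.ofReal (l / Real.exp 1) ^ q * M ^ (q / p) =
      T * ENNReal.ofReal (Real.exp (-q)) := by
    rw [hT1, ENNReal.ofReal_div_of_pos (Real.exp_pos 1), ENNReal.div_rpow_of_nonneg _ _ hq0.le,
      div_eq_mul_inv]
    have e : (ENNReal.ofReal (Real.exp 1) ^ q)⁻¹ = ENNReal.ofReal (Real.exp (-q)) := by
      rw [ENNReal.ofReal_rpow_of_pos (Real.exp_pos 1), ← Real.exp_mul, one_mul,
        ← ENNReal.ofReal_inv_of_pos (Real.exp_pos _), ← Real.exp_neg]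
    rw [e]
    ring
  rw [h3] at h2
  have h4 := (ENNReal.mul_le_mul_iff_right hT0 hTt).mp h2
  refine h4.trans ?_
  apply ENNReal.ofReal_le_ofReal
  apply Real.exp_le_exp.mpr
  linarith

end Pool.Agent.Q263.WR
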