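import Pool.Agent.Q263.WR.E
import Pool.Agent.Q263.WR.P
set_option autoImplicit false

/-! Random multipliers: the partial sums over the blocks converge. -/

namespace Pool.Agent.Q263.WR

open MeasureTheory Set Complex Filter Topology ProbabilityTheory
open scoped ENNReal NNReal FourierTransform
open Pool.Agent.Y183.LS (ec ec_norm ec_enorm ec_add ec_cont ec_zero ec_sum dt dt_add dt_comm dt_cont
  dt_cont2 iz dt_add_left convex_sum)
open Pool.Agent.Q89.WS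

variable {d : ℕ}

/-- the random multiplier -/
noncomputable def mu (c : (Fin d → ℤ) → ℕ) (u : ℕ → ℂ) (ξ : Fin d → ℝ) : ℂ :=
  ∑' k, u (c k) * (BB k ξ : ℂ)

/-- the cubes which matter at a point -/
noncomputable def act (ξ : Fin d → ℝ) : Finset (Fin d → ℤ) :=
  Fintype.piFinset fun j => Finset.Icc (⌊ξ j⌋ - 1) (⌊ξ j⌋ + 2)

lemma act_of {k : Fin d → ℤ} {ξ : Fin d → ℝ} (h : BB k ξ ≠ 0) : k ∈ act ξ := by
  unfold act
  rw [Fintype.mem_piFinset]
  intro j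
  have h1 := abs_lt.mp (BB_ne h j)
  have h2 := Int.floor_le (ξ j)
  have h3 := Int.lt_floor_add_one (ξ j)
  rw [Finset.mem_Icc]
  constructor
  · have : (⌊ξ j⌋ : ℝ) - 1 < k j := by linarith [h1.2]
    have h4 : ⌊ξ j⌋ - 1 < k j := by exact_mod_cast this
    omega
  · have : (k j : ℝ) < ⌊ξ j⌋ + 2 := by linarith [h1.1]
    have h4 : k j < ⌊ξ j⌋ + 2 := by exact_mod_cast this
    omega

lemma mu_act (c : (Fin d → ℤ) → ℕ) (u : ℕ → ℂ) (ξ : Fin d → ℝ) :
    mu c u ξ = ∑ k ∈ act ξ, u (c k) * (BB k ξ : ℂ) := by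
  unfold mu
  apply tsum_eq_sum
  intro k hk
  have : BB k ξ = 0 := by
    by_contra h
    exact hk (act_of h)
  rw [this]
  simp

/-- the blocks -/
noncomputable def bk (c : (Fin d → ℤ) → ℕ) (hc : ∀ i, (c ⁻¹' {i}).Finite) (i : ℕ) :
    Finset (Fin d → ℤ) := (hc i).toFinset

lemma mem_bk {c : (Fin d → ℤ) → ℕ} {hc : ∀ i, (c ⁻¹' {i}).Finite} {i : ℕ} {k : Fin d → ℤ} :
    k ∈ bk c hc i ↔ c k = i := by
  unfold bk
  rw [Set.Finite.mem_toFinset]
  simp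

/-- the union of the first blocks -/
noncomputable def un (c : (Fin d → ℤ) → ℕ) (hc : ∀ i, (c ⁻¹' {i}).Finite) (J : ℕ) :
    Finset (Fin d → ℤ) := (Finset.range J).biUnion (bk c hc)

lemma mem_un {c : (Fin d → ℤ) → ℕ} {hc : ∀ i, (c ⁻¹' {i}).Finite} {J : ℕ} {k : Fin d → ℤ} :
    k ∈ un c hc J ↔ c k < J := by
  unfold un
  rw [Finset.mem_biUnion]
  simp only [mem_bk, Finset.mem_range]
  constructor
  · rintro ⟨i, hi, h⟩
    omega
  · intro h
    exact ⟨c k, h, rfl⟩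

lemma part_eq (c : (Fin d → ℤ) → ℕ) (hc : ∀ i, (c ⁻¹' {i}).Finite) (u : ℕ → ℂ) (J : ℕ)
    (ξ : Fin d → ℝ) : ∑ i ∈ Finset.range J, u i * (Ps (bk c hc i) ξ : ℂ) =
      ∑ k ∈ un c hc J, u (c k) * (BB k ξ : ℂ) := by
  unfold un
  rw [Finset.sum_biUnion]
  · apply Finset.sum_congr rfl
    intro i _
    unfold Ps
    push_cast
    rw [Finset.mul_sum]
    apply Finset.sum_congr rfl
    intro k hk
    rw [mem_bk.mp hk]
  · intro i _ j _ hij
    rw [Function.onFun, Finset.disjoint_left]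
    intro k h1 h2
    exact hij ((mem_bk.mp h1).symm.trans (mem_bk.mp h2))

lemma part_ev (c : (Fin d → ℤ) → ℕ) (hc : ∀ i, (c ⁻¹' {i}).Finite) (u : ℕ → ℂ)
    (ξ : Fin d → ℝ) :
    ∀ᶠ J : ℕ in atTop, ∑ i ∈ Finset.range J, u i * (Ps (bk c hc i) ξ : ℂ) = mu c u ξ := by
  filter_upwards [eventually_gt_atTop ((act ξ).sup c)] with J hJ
  rw [part_eq, mu_act]
  symm
  apply Finset.sum_subset
  · intro k hk
    rw [mem_un]
    exact (Finset.le_sup hk).trans_lt hJ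
  · intro k _ hk
    have : BB k ξ = 0 := by
      by_contra h
      exact hk (act_of h)
    rw [this]
    simp

lemma part_bd (c : (Fin d → ℤ) → ℕ) (hc : ∀ i, (c ⁻¹' {i}).Finite) {u : ℕ → ℂ}
    (hu : ∀ i, ‖u i‖ ≤ 1) (J : ℕ) (ξ : Fin d → ℝ) :
    ‖∑ i ∈ Finset.range J, u i * (Ps (bk c hc i) ξ : ℂ)‖ ≤ 1 := by
  rw [part_eq]
  refine (norm_sum_le _ _).trans (le_trans ?_ (BB_le (un c hc J) ξ))
  apply Finset.sum_le_sum
  intro k _
  rw [norm_mul, Complex.norm_real, Real.norm_of_nonneg (BB_nonneg k ξ)]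
  have := hu (c k)
  have := BB_nonneg k ξ
  nlinarith [norm_nonneg (u (c k))]

lemma Psft_int {f : (Fin d → ℝ) → ℂ} (hf : Integrable f)
    (hff : Integrable (ft f)) {N : (Fin d → ℝ) → ℂ} (hN : Measurable N) {B : ℝ}
    (hB : ∀ ξ, ‖N ξ‖ ≤ B) (S : Finset (Fin d → ℤ)) (x : Fin d → ℝ) :
    Integrable fun ξ => ec (dt x ξ) * (N ξ * ((Ps S ξ : ℂ) * ft f ξ)) := by
  have hB0 : 0 ≤ B := (norm_nonneg _).trans (hB 0)
  refine (hff.norm.const_mul B).mono' ?_ ?_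
  · have me : Measurable fun ξ : Fin d → ℝ => ec (dt x ξ) := ecdt_meas measurable_const measurable_id
    have mp : Measurable fun ξ : Fin d → ℝ => (Ps S ξ : ℂ) :=
      Complex.measurable_ofReal.comp (Ps_cont S).measurable
    exact (me.mul (hN.mul (mp.mul (ft_cont hf).measurable))).aestronglyMeasurable
  · filter_upwards with ξ
    rw [norm_mul, ec_norm, one_mul, norm_mul, norm_mul, Complex.norm_real,
      Real.norm_of_nonneg (Ps_nonneg S ξ)]
    have h1 := hB ξ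
    have h2 := BB_le S ξ
    have h3 := Ps_nonneg S ξ
    calc ‖N ξ‖ * (Ps S ξ * ‖ft f ξ‖) ≤ B * (1 * ‖ft f ξ‖) := by
          gcongr
          exact h2
      _ = _ := by ring

/-- **convergence of the partial sums over the blocks** -/
lemma lim_gen (c : (Fin d → ℤ) → ℕ) (hc : ∀ i, (c ⁻¹' {i}).Finite) {u : ℕ → ℂ}
    (hu : ∀ i, ‖u i‖ ≤ 1) {f : (Fin d → ℝ) → ℂ} (hf : Integrable f) (hff : Integrable (ft f))
    {N : (Fin d → ℝ) → ℂ} (hN : Measurable N) {B : ℝ} (hB : ∀ ξ, ‖N ξ‖ ≤ B) (x : Fin d → ℝ) :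
    Tendsto (fun J : ℕ => ∑ i ∈ Finset.range J, u i *
      ∫ ξ, ec (dt x ξ) * (N ξ * ((Ps (bk c hc i) ξ : ℂ) * ft f ξ))) atTop
      (𝓝 (∫ ξ, ec (dt x ξ) * (N ξ * (mu c u ξ * ft f ξ)))) := by
  have hB0 : 0 ≤ B := (norm_nonneg _).trans (hB 0)
  have e1 : ∀ J : ℕ, ∑ i ∈ Finset.range J, u i *
      ∫ ξ, ec (dt x ξ) * (N ξ * ((Ps (bk c hc i) ξ : ℂ) * ft f ξ)) =
      ∫ ξ, ec (dt x ξ) * (N ξ * ((∑ i ∈ Finset.range J, u i * (Ps (bk c hc i) ξ : ℂ)) * ft f ξ)) := by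
    intro J
    simp only [← integral_const_mul]
    rw [← integral_finsetSum _ fun i _ => (Psft_int hf hff hN hB (bk c hc i) x).const_mul (u i)]
    congr 1
    ext ξ
    rw [Finset.sum_mul, Finset.mul_sum, Finset.mul_sum]
    apply Finset.sum_congr rfl
    intro i _
    ring
  simp only [e1]
  have me : Measurable fun ξ : Fin d → ℝ => ec (dt x ξ) := ecdt_meas measurable_const measurable_id
  refine tendsto_integral_of_dominated_convergence (fun ξ => B * ‖ft f ξ‖) ?_ (hff.norm.const_mul B) ?_ ?_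
  · intro J
    refine (me.mul (hN.mul (Measurable.mul ?_ (ft_cont hf).measurable))).aestronglyMeasurable
    exact Finset.measurable_sum _ fun i _ =>
      (Complex.measurable_ofReal.comp (Ps_cont _).measurable).const_mul _
  · intro J
    filter_upwards with ξ
    rw [norm_mul, ec_norm, one_mul, norm_mul, norm_mul]
    have h1 := hB ξ
    have h2 := part_bd c hc hu J ξ
    calc ‖N ξ‖ * (‖∑ i ∈ Finset.range J, u i * (Ps (bk c hc i) ξ : ℂ)‖ * ‖ft f ξ‖) ≤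
        B * (1 * ‖ft f ξ‖) := by gcongr
      _ = _ := by ring
  · filter_upwards with ξ
    refine Tendsto.congr' ?_ tendsto_const_nhds
    filter_upwards [part_ev c hc u ξ] with J hJ
    rw [hJ]

/-- the random function -/
noncomputable def fo (c : (Fin d → ℤ) → ℕ) (u : ℕ → ℂ) (f : (Fin d → ℝ) → ℂ) (x : Fin d → ℝ) : ℂ :=
  ∫ ξ, ec (dt x ξ) * (mu c u ξ * ft f ξ)

/-- the random solution -/
noncomputable def Wo (y : ℝ → ℂ → ℂ) (c : (Fin d → ℤ) → ℕ) (u : ℕ → ℂ) (f : (Fin d → ℝ) → ℂ)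
    (t : ℝ) (x : Fin d → ℝ) : ℂ := ∫ ξ, ec (dt x ξ) * (y t (nq ξ) * (mu c u ξ * ft f ξ))

lemma fo_lim (c : (Fin d → ℤ) → ℕ) (hc : ∀ i, (c ⁻¹' {i}).Finite) {u : ℕ → ℂ}
    (hu : ∀ i, ‖u i‖ ≤ 1) {f : (Fin d → ℝ) → ℂ} (hf : Integrable f) (hff : Integrable (ft f))
    (x : Fin d → ℝ) : Tendsto (fun J : ℕ => ∑ i ∈ Finset.range J, u i * PB (bk c hc i) f x) atTop
      (𝓝 (fo c u f x)) := by
  have h := lim_gen c hc hu hf hff (N := fun _ => 1) measurable_const (B := 1) (by simp) x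
  simp only [one_mul] at h
  simp only [PB_inv hf]
  exact h

lemma PB_sum_bd (c : (Fin d → ℤ) → ℕ) (hc : ∀ i, (c ⁻¹' {i}).Finite) {u : ℕ → ℂ}
    (hu : ∀ i, ‖u i‖ ≤ 1) {f : (Fin d → ℝ) → ℂ} (hf : Integrable f) (hff : Integrable (ft f))
    (J : ℕ) (x : Fin d → ℝ) :
    ‖∑ i ∈ Finset.range J, u i * PB (bk c hc i) f x‖ ≤ ∫ ξ, ‖ft f ξ‖ := by
  have hi := fun i => Psft_int hf hff (N := fun _ => 1) measurable_const (B := 1) (by simp)
    (bk c hc i) x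
  simp only [one_mul] at hi
  have e1 : ∑ i ∈ Finset.range J, u i * PB (bk c hc i) f x =
      ∫ ξ, ec (dt x ξ) * ((∑ i ∈ Finset.range J, u i * (Ps (bk c hc i) ξ : ℂ)) * ft f ξ) := by
    simp only [PB_inv hf, ← integral_const_mul]
    rw [← integral_finsetSum _ fun i _ => (hi i).const_mul (u i)]
    congr 1
    ext ξ
    rw [Finset.sum_mul, Finset.mul_sum]
    apply Finset.sum_congr rfl
    intro i _
    ring
  rw [e1]
  refine (norm_integral_le_integral_norm _).trans ?_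
  apply integral_mono_of_nonneg
  · filter_upwards with ξ
    exact norm_nonneg _
  · exact hff.norm
  · filter_upwards with ξ
    rw [norm_mul, ec_norm, one_mul, norm_mul]
    have h2 := part_bd c hc hu J ξ
    calc ‖∑ i ∈ Finset.range J, u i * (Ps (bk c hc i) ξ : ℂ)‖ * ‖ft f ξ‖ ≤ 1 * ‖ft f ξ‖ := by
          gcongr
      _ = _ := one_mul _

lemma Wo_lim {s : ℝ} (hs : 0 ≤ s) {y z : ℝ → ℂ → ℂ} (hy : Pair s y z) {n : ℕ}
    (c : (Fin (n + 1) → ℤ) → ℕ) (hc : ∀ i, (c ⁻¹' {i}).Finite) {u : ℕ → ℂ}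
    (hu : ∀ i, ‖u i‖ ≤ 1) {f : (Fin (n + 1) → ℝ) → ℂ} (hf : Integrable f) (hff : Integrable (ft f))
    {t : ℝ} (ht1 : 1 ≤ t) (ht2 : t ≤ 2) (x : Fin (n + 1) → ℝ) :
    Tendsto (fun J : ℕ => ∑ i ∈ Finset.range J, u i *
      TT y (fat (bk c hc i)) (PB (bk c hc i) f) t x) atTop (𝓝 (Wo y c u f t x)) := by
  obtain ⟨C, hC, h⟩ := y_bd hy n
  have h1 := lim_gen c hc hu hf hff (N := fun ξ : Fin (n + 1) → ℝ => y t (nq ξ))
    (y_nq hy measurable_const measurable_id) (B := C) (by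
      intro ξ
      refine (h t ht1 ht2 ξ).trans ?_
      have := Jr_le_one hs ξ
      nlinarith) x
  simp only [TT_PB hs hy hf _ ht1 ht2]
  exact h1

section prob
variable {Ω : Type*} [MeasurableSpace Ω] (P : Measure Ω) [IsProbabilityMeasure P] (X : ℕ → Ω → ℂ)

lemma fo_meas (hm : ∀ i, Measurable (X i)) (hb : ∀ i ω, ‖X i ω‖ ≤ 1)
    (c : (Fin d → ℤ) → ℕ) (hc : ∀ i, (c ⁻¹' {i}).Finite)
    {f : (Fin d → ℝ) → ℂ} (hf : Integrable f) (hff : Integrable (ft f)) :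
    Measurable fun q : Ω × (Fin d → ℝ) => fo c (fun i => X i q.1) f q.2 := by
  refine measurable_of_tendsto_metrizable (f := fun (J : ℕ) (q : Ω × (Fin d → ℝ)) =>
    ∑ i ∈ Finset.range J, X i q.1 * PB (bk c hc i) f q.2) ?_ ?_
  · intro J
    apply Finset.measurable_sum
    intro i _
    exact ((hm i).comp measurable_fst).mul ((PB_cont hf _).measurable.comp measurable_snd)
  · rw [tendsto_pi_nhds]
    intro q
    exact fo_lim c hc (fun i => hb i q.1) hf hff q.2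

/-- the square function is dominated by the random function -/
theorem low (hm : ∀ i, Measurable (X i)) (hi : iIndepFun X P)
    (hb : ∀ i ω, ‖X i ω‖ ≤ 1) (h0 : ∀ i, ∫ ω, X i ω ∂P = 0) (δ : ℝ≥0)
    (hδ : ∀ i, (δ : ℝ≥0∞) ≤ ∫⁻ ω, ‖X i ω‖ₑ ^ 2 ∂P) (p : ℝ) (hp : 2 ≤ p)
    (c : (Fin d → ℤ) → ℕ) (hc : ∀ i, (c ⁻¹' {i}).Finite)
    {f : (Fin d → ℝ) → ℂ} (hf : Integrable f) (hff : Integrable (ft f)) (J : ℕ) (x : Fin d → ℝ) :
    (δ : ℝ≥0∞) ^ (p / 2) * (∑ i ∈ Finset.range J, ‖PB (bk c hc i) f x‖ₑ ^ 2) ^ (p / 2) ≤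
      ∫⁻ ω, ‖fo c (fun i => X i ω) f x‖ₑ ^ p ∂P := by
  have hp0 : 0 < p := by linarith
  have h1 : Tendsto (fun J : ℕ => ∫⁻ ω, ‖∑ i ∈ Finset.range J, X i ω * PB (bk c hc i) f x‖ₑ ^ p ∂P)
      atTop (𝓝 (∫⁻ ω, ‖fo c (fun i => X i ω) f x‖ₑ ^ p ∂P)) := by
    refine tendsto_lintegral_of_dominated_convergence
      (fun _ => ENNReal.ofReal (∫ ξ, ‖ft f ξ‖) ^ p) ?_ ?_ ?_ ?_
    · intro J
      refine (Measurable.enorm ?_).pow_const p
      exact Finset.measurable_sum _ fun i _ => (hm i).mul_const _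
    · intro J
      filter_upwards with ω
      apply ENNReal.rpow_le_rpow _ hp0.le
      rw [← ofReal_norm]
      exact ENNReal.ofReal_le_ofReal (PB_sum_bd c hc (fun i => hb i ω) hf hff J x)
    · rw [lintegral_const, measure_univ, mul_one]
      exact ENNReal.rpow_ne_top_of_nonneg hp0.le ENNReal.ofReal_ne_top
    · filter_upwards with ω
      have h2 := fo_lim c hc (fun i => hb i ω) hf hff x
      exact ((ENNReal.continuous_rpow_const.tendsto _).comp (h2.enorm))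
  refine ge_of_tendsto h1 ?_
  filter_upwards [eventually_ge_atTop J] with J' hJ'
  refine le_trans ?_ (Pool.Agent.Q26.WR.khl P X hm hi hb h0 δ hδ p hp J'
    (fun i => PB (bk c hc i) f x))
  gcongr

end prob

end Pool.Agent.Q263.WR
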