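import Pool.Agent.Q263.WR.F
set_option autoImplicit false

/-! The deterministic estimates for the blocks, and the moments of the solution. -/

namespace Pool.Agent.Q263.WR

open MeasureTheory Set Complex Filter Topology ProbabilityTheory
open scoped ENNReal NNReal FourierTransform
open Pool.Agent.Y183.LS (ec ec_norm ec_enorm ec_add ec_cont ec_zero ec_sum dt dt_add dt_comm dt_cont
  dt_cont2 iz dt_add_left convex_sum)
open Pool.Agent.Q89.WS

variable {d : ℕ}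

lemma ak_near {s : ℝ} (hs : 0 ≤ s) {k l : Fin d → ℤ} (h : ∀ j, |k j - l j| ≤ 1) :
    ak s k ≤ (4 * (1 + (d : ℝ))) ^ (s / 2) * (1 + nrm (iz l)) ^ (-s) := by
  have h1 : nq (iz l) ≤ 2 * nq (iz k) + 2 * d := by
    unfold nq
    have e : 2 * ∑ i, iz k i ^ 2 + 2 * (d : ℝ) = ∑ i : Fin d, (2 * iz k i ^ 2 + 2) := by
      rw [Finset.sum_add_distrib, ← Finset.mul_sum]
      simp
      ring
    rw [e]
    apply Finset.sum_le_sum
    intro i _
    have h2 : |((k i - l i : ℤ) : ℝ)| ≤ 1 := by exact_mod_cast h i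
    push_cast at h2
    have h3 : ((k i : ℝ) - l i) ^ 2 ≤ 1 := by
      rw [← sq_abs]
      have := abs_nonneg ((k i : ℝ) - l i)
      nlinarith
    change (l i : ℝ) ^ 2 ≤ 2 * (k i : ℝ) ^ 2 + 2
    nlinarith [sq_nonneg (2 * (k i : ℝ) - l i)]
  have h2 := nq_nonneg (iz k)
  have h3 := nrm_nonneg (iz l)
  have h4 := nrm_sq (iz l)
  have h5 : (1 + nrm (iz l)) ^ 2 / (4 * (1 + (d : ℝ))) ≤ 1 + nq (iz k) := by
    rw [div_le_iff₀ (by positivity)]
    have h6 : (1 + nrm (iz l)) ^ 2 ≤ 2 * (1 + nq (iz l)) := by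
      rw [← h4]
      nlinarith [sq_nonneg (1 - nrm (iz l))]
    have h7 : (0 : ℝ) ≤ d := Nat.cast_nonneg d
    nlinarith [mul_nonneg h2 h7]
  unfold ak
  have h8 : (1 + nq (iz k)) ^ (-s / 2) ≤ ((1 + nrm (iz l)) ^ 2 / (4 * (1 + (d : ℝ)))) ^ (-s / 2) :=
    Real.rpow_le_rpow_of_nonpos (by positivity) h5 (by linarith)
  refine h8.trans (le_of_eq ?_)
  rw [Real.div_rpow (by positivity) (by positivity), ← Real.rpow_natCast, ← Real.rpow_mul (by positivity)]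
  have e1 : ((2 : ℕ) : ℝ) * (-s / 2) = -s := by
    push_cast
    ring
  have e2 : -s / 2 = -(s / 2) := by ring
  rw [e1, e2, Real.rpow_neg (by positivity) (s / 2), div_inv_eq_mul, mul_comm]

/-- the estimate for the blocks of a colouring -/
def Det (p : ℝ) (C : ℝ≥0) (y : ℝ → ℂ → ℂ) (n : ℕ) (c : (Fin (n + 1) → ℤ) → ℕ)
    (hc : ∀ i, (c ⁻¹' {i}).Finite) : Prop :=
  ∀ f : (Fin (n + 1) → ℝ) → ℂ, Integrable f → ∀ (J : ℕ) (t : ℝ), 1 ≤ t → t ≤ 2 →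
    ∫⁻ x, (∑ i ∈ Finset.range J, ‖TT y (fat (bk c hc i)) (PB (bk c hc i) f) t x‖ₑ ^ 2) ^ (p / 2) ≤
      C * ∫⁻ x, (∑ i ∈ Finset.range J, ‖PB (bk c hc i) f x‖ₑ ^ 2) ^ (p / 2)

/-- bounded blocks -/
theorem det_bounded {y z : ℝ → ℂ → ℂ} (hy : Pair 0 y z) (n : ℕ) (p : ℝ) (hp : 2 ≤ p) (N : ℕ) :
    ∃ C : ℝ≥0, ∀ (c : (Fin (n + 1) → ℤ) → ℕ) (hc : ∀ i, (c ⁻¹' {i}).Finite),
      (∀ i, (c ⁻¹' {i}).ncard ≤ N) → Det p C y n c hc := by
  obtain ⟨C, hC⟩ := TT_group marc le_rfl hy n p hp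
  refine ⟨C * (1 * (((N * 3 ^ (n + 1) + 1 : ℕ) : ℝ)) ^ (p / 2 - 1)).toNNReal, ?_⟩
  intro c hc hN f hf J t ht1 ht2
  have h := hC (Finset.range J) (fun i => PB (bk c hc i) f) (fun i => (PB_cont hf _).measurable)
    (fun i => PB_int hf _) (fun i => fat (bk c hc i)) 1 (N * 3 ^ (n + 1) + 1) one_pos
    (Nat.succ_pos _) ?_ ?_ t ht1 ht2
  · refine h.trans (le_of_eq ?_)
    rw [Real.one_rpow]
    push_cast
    rfl
  · intro i _
    have h1 := fat_card (bk c hc i)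
    have h2 : (bk c hc i).card ≤ N := by
      have := hN i
      rw [Set.ncard_eq_toFinset_card _ (hc i)] at this
      exact this
    calc (fat (bk c hc i)).card ≤ (bk c hc i).card * 3 ^ (n + 1) := h1
      _ ≤ N * 3 ^ (n + 1) := Nat.mul_le_mul_right _ h2
      _ ≤ _ := Nat.le_succ _
  · intro i _ k _
    unfold ak
    simp

/-- blocks of growing size -/
theorem det_growing {s : ℝ} (hs : 0 ≤ s) {y z : ℝ → ℂ → ℂ} (hy : Pair s y z) (n : ℕ) (p β A : ℝ)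
    (hp : 2 ≤ p) (hβ : 0 ≤ β) (hsβ : β * (1 / 2 - 1 / p) < s) :
    ∃ C : ℝ≥0, ∀ (c : (Fin (n + 1) → ℤ) → ℕ) (hc : ∀ i, (c ⁻¹' {i}).Finite),
      (∀ k, ((c ⁻¹' {c k}).ncard : ℝ) ≤ A * (1 + nrm (iz k)) ^ β) → Det p C y n c hc := by
  obtain ⟨C, hC⟩ := TT_levels hs hy n p β (max A 1 * 3 ^ (n + 1))
    ((4 * (1 + ((n + 1 : ℕ) : ℝ))) ^ (s / 2)) hp hβ (by positivity) (by positivity) hsβ
  refine ⟨C, ?_⟩
  intro c hc hN f hf J t ht1 ht2
  have hm : ∀ i, ∃ m : ℝ, 1 ≤ m ∧ ((fat (bk c hc i)).card : ℝ) ≤ (max A 1 * 3 ^ (n + 1)) * m ^ β ∧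
      ∀ k ∈ fat (bk c hc i), ak s k ≤ ((4 * (1 + ((n + 1 : ℕ) : ℝ))) ^ (s / 2)) * m ^ (-s) := by
    intro i
    rcases (bk c hc i).eq_empty_or_nonempty with h | h
    · refine ⟨1, le_rfl, ?_, ?_⟩
      · rw [h]
        unfold fat
        rw [Finset.biUnion_empty, Finset.card_empty]
        simp only [CharP.cast_eq_zero, Real.one_rpow, mul_one]
        positivity
      · intro k hk
        rw [h] at hk
        unfold fat at hk
        simp at hk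
    · obtain ⟨l, hl, hmin⟩ := Finset.exists_min_image (bk c hc i) (fun k => 1 + nrm (iz k)) h
      have hl0 := nrm_nonneg (iz l)
      refine ⟨1 + nrm (iz l), by linarith, ?_, ?_⟩
      · have h1 := fat_card (bk c hc i)
        have h2 : ((bk c hc i).card : ℝ) ≤ A * (1 + nrm (iz l)) ^ β := by
          have h3 := hN l
          rw [mem_bk.mp hl, Set.ncard_eq_toFinset_card _ (hc i)] at h3
          exact h3
        have h4 : ((fat (bk c hc i)).card : ℝ) ≤ (bk c hc i).card * 3 ^ (n + 1) := by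
          exact_mod_cast h1
        calc ((fat (bk c hc i)).card : ℝ) ≤ (bk c hc i).card * 3 ^ (n + 1) := h4
          _ ≤ (A * (1 + nrm (iz l)) ^ β) * 3 ^ (n + 1) := by gcongr
          _ ≤ (max A 1 * (1 + nrm (iz l)) ^ β) * 3 ^ (n + 1) := by
              gcongr
              exact le_max_left _ _
          _ = _ := by ring
      · intro k hk
        obtain ⟨l', hl', hkl⟩ := mem_fat.mp hk
        refine (ak_near hs hkl).trans ?_
        have h5 := hmin l' hl'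
        have h6 := nrm_nonneg (iz l')
        have h7 : (1 + nrm (iz l')) ^ (-s) ≤ (1 + nrm (iz l)) ^ (-s) :=
          Real.rpow_le_rpow_of_nonpos (by positivity) h5 (by linarith)
        gcongr
  choose m hm1 hm2 hm3 using hm
  exact hC (Finset.range J) (fun i => PB (bk c hc i) f) (fun i => (PB_cont hf _).measurable)
    (fun i => PB_int hf _) (fun i => fat (bk c hc i)) m (fun i _ => hm1 i) (fun i _ => hm2 i)
    (fun i _ => hm3 i) t ht1 ht2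

section prob
variable {Ω : Type*} [MeasurableSpace Ω]

/-- the hypotheses on the random factors -/
structure Rad (P : Measure Ω) (δ : ℝ≥0) (X : ℕ → Ω → ℂ) : Prop where
  meas : ∀ i, Measurable (X i)
  ind : iIndepFun X P
  bd : ∀ i ω, ‖X i ω‖ ≤ 1
  mean : ∀ i, ∫ ω, X i ω ∂P = 0
  var : ∀ i, (δ : ℝ≥0∞) ≤ ∫⁻ ω, ‖X i ω‖ₑ ^ 2 ∂P

/-- the average of the norm of the random function -/
noncomputable def Mn (P : Measure Ω) (X : ℕ → Ω → ℂ) (p : ℝ) (c : (Fin d → ℤ) → ℕ)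
    (f : (Fin d → ℝ) → ℂ) : ℝ≥0∞ := ∫⁻ ω, (∫⁻ x, ‖fo c (fun i => X i ω) f x‖ₑ ^ p) ∂P

/-- a partial sum of the random solution -/
noncomputable def FJ (y : ℝ → ℂ → ℂ) (c : (Fin d → ℤ) → ℕ)
    (hc : ∀ i, (c ⁻¹' {i}).Finite) (f : (Fin d → ℝ) → ℂ) (J : ℕ) (u : ℕ → ℂ)
    (q : ℝ × (Fin d → ℝ)) : ℂ :=
  ∑ i ∈ Finset.range J, u i * TT y (fat (bk c hc i)) (PB (bk c hc i) f) q.1 q.2

/-- **moments of the partial sums** -/
theorem mom (P : Measure Ω) [IsProbabilityMeasure P] {δ : ℝ≥0} (hδ : 0 < δ) {X : ℕ → Ω → ℂ}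
    (hX : Rad P δ X) {s : ℝ} {y z : ℝ → ℂ → ℂ} (hy : Pair s y z) {n : ℕ} {p q : ℝ} (hp : 2 ≤ p)
    (hq : p ≤ q) {C : ℝ≥0} {c : (Fin (n + 1) → ℤ) → ℕ} {hc : ∀ i, (c ⁻¹' {i}).Finite}
    (hD : Det p C y n c hc) {f : (Fin (n + 1) → ℝ) → ℂ} (hf : Integrable f)
    (hff : Integrable (ft f)) (μ : Measure ℝ) [SFinite μ] (hμ : μ univ ≤ 1)
    (hμ2 : ∀ᵐ t ∂μ, 1 ≤ t ∧ t ≤ 2) (J : ℕ) :
    ∫⁻ ω, (∫⁻ w, ‖FJ y c hc f J (fun i => X i ω) w‖ₑ ^ p ∂(μ.prod volume)) ^ (q / p) ∂P ≤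
      ENNReal.ofReal (8 * Real.sqrt q) ^ q *
        (C * ((δ : ℝ≥0∞) ^ (p / 2))⁻¹ * Mn P X p c f) ^ (q / p) := by
  have hp0 : 0 < p := by linarith
  have ha : ∀ i, Measurable fun w : ℝ × (Fin (n + 1) → ℝ) =>
      TT y (fat (bk c hc i)) (PB (bk c hc i) f) w.1 w.2 := fun i => TT_meas hy (PB_int hf _) _
  have h1 := series P X hX.meas hX.ind hX.bd hX.mean (μ.prod volume) p q (by linarith) hq J
    (fun i w => TT y (fat (bk c hc i)) (PB (bk c hc i) f) w.1 w.2) ha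
  have hq0 : 0 < q := by linarith
  refine h1.trans (mul_le_mul' le_rfl (ENNReal.rpow_le_rpow ?_ (by positivity)))
  have hm : Measurable fun w : ℝ × (Fin (n + 1) → ℝ) => (∑ i ∈ Finset.range J,
      ‖TT y (fat (bk c hc i)) (PB (bk c hc i) f) w.1 w.2‖ₑ ^ 2) ^ (p / 2) :=
    (Finset.measurable_sum _ fun i _ => (ha i).enorm.pow_const 2).pow_const _
  rw [lintegral_prod _ hm.aemeasurable]
  set IJ : ℝ≥0∞ := ∫⁻ x, (∑ i ∈ Finset.range J, ‖PB (bk c hc i) f x‖ₑ ^ 2) ^ (p / 2) with hIJ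
  have h2 : ∫⁻ t, (∫⁻ x, (∑ i ∈ Finset.range J,
      ‖TT y (fat (bk c hc i)) (PB (bk c hc i) f) t x‖ₑ ^ 2) ^ (p / 2)) ∂μ ≤ C * IJ := by
    calc _ ≤ ∫⁻ _t, C * IJ ∂μ := by
          apply lintegral_mono_ae
          filter_upwards [hμ2] with t ht
          exact hD f hf J t ht.1 ht.2
      _ = C * IJ * μ univ := lintegral_const _
      _ ≤ C * IJ * 1 := by gcongr
      _ = _ := mul_one _
  refine h2.trans ?_
  rw [mul_assoc]
  gcongr
  have hδ0 : (δ : ℝ≥0∞) ^ (p / 2) ≠ 0 := by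
    apply (ENNReal.rpow_pos _ ENNReal.coe_ne_top).ne'
    exact_mod_cast hδ
  have hδt : (δ : ℝ≥0∞) ^ (p / 2) ≠ ∞ := ENNReal.rpow_ne_top_of_nonneg (by linarith) ENNReal.coe_ne_top
  rw [← ENNReal.div_eq_inv_mul, ENNReal.le_div_iff_mul_le (Or.inl hδ0) (Or.inl hδt), mul_comm, hIJ,
    ← lintegral_const_mul' _ _ hδt]
  unfold Mn
  have hfm := fo_meas X hX.meas hX.bd c hc hf hff
  rw [lintegral_lintegral_swap (hfm.enorm.pow_const p).aemeasurable]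
  apply lintegral_mono
  intro x
  exact low P X hX.meas hX.ind hX.bd hX.mean δ hX.var p hp c hc hf hff J x

end prob

end Pool.Agent.Q263.WR
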