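import Pool.Agent.Q263.WR.G
set_option autoImplicit false

/-! The moments of the solution with random data. -/

namespace Pool.Agent.Q263.WR

open MeasureTheory Set Complex Filter Topology ProbabilityTheory
open scoped ENNReal NNReal FourierTransform
open Pool.Agent.Y183.LS (ec ec_norm ec_enorm ec_add ec_cont ec_zero ec_sum dt dt_add dt_comm dt_cont
  dt_cont2 iz dt_add_left convex_sum)
open Pool.Agent.Q89.WS

variable {d : ℕ}

lemma FJ_meas {Ω : Type*} [MeasurableSpace Ω] {X : ℕ → Ω → ℂ} (hm : ∀ i, Measurable (X i)) {s : ℝ}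
    {y z : ℝ → ℂ → ℂ} (hy : Pair s y z) (c : (Fin d → ℤ) → ℕ) (hc : ∀ i, (c ⁻¹' {i}).Finite)
    {f : (Fin d → ℝ) → ℂ} (hf : Integrable f) (J : ℕ) :
    Measurable fun r : Ω × (ℝ × (Fin d → ℝ)) => FJ y c hc f J (fun i => X i r.1) r.2 := by
  unfold FJ
  apply Finset.measurable_sum
  intro i _
  have h1 := TT_meas hy (PB_int hf (bk c hc i)) (fat (bk c hc i))
  exact ((hm i).comp measurable_fst).mul (h1.comp measurable_snd)

lemma two_rpow (a b : ℝ≥0∞) (r : ℝ) (hr : 1 ≤ r) : (a + b) ^ r ≤ 2 ^ (r - 1) * (a ^ r + b ^ r) :=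
  ENNReal.rpow_add_le_mul_rpow_add_rpow _ _ hr

theorem fin_est (p : ℝ) (hp : 2 ≤ p) (δ : ℝ≥0) (hδ : 0 < δ) (C0 C1 : ℝ≥0) : ∃ K : ℝ, 0 < K ∧
    ∀ {Ω : Type} [MeasurableSpace Ω] (P : Measure Ω) [IsProbabilityMeasure P] (X Y : ℕ → Ω → ℂ),
    Rad P δ X → Rad P δ Y → ∀ {s : ℝ}, 0 ≤ s → ∀ {n : ℕ} (c : (Fin (n + 1) → ℤ) → ℕ)
    (hc : ∀ i, (c ⁻¹' {i}).Finite), Det p C0 (y0 s) n c hc → Det p C1 (y1 s) n c hc →
    ∀ (f₀ f₁ : (Fin (n + 1) → ℝ) → ℂ), Integrable f₀ → Integrable f₁ → Integrable (ft f₀) →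
    Integrable (ft f₁) → ∀ (μ : Measure ℝ) [SFinite μ], μ univ ≤ 1 → (∀ᵐ t ∂μ, 1 ≤ t ∧ t ≤ 2) →
    ∃ Z : Ω → ℝ≥0∞, Measurable Z ∧ (∀ ω, ∫⁻ t, (∫⁻ x, ‖Wo (y0 s) c (fun i => X i ω) f₀ t x +
        Wo (y1 s) c (fun i => Y i ω) f₁ t x‖ₑ ^ p) ∂μ ≤ Z ω) ∧
      ∀ q : ℝ, p ≤ q → ∫⁻ ω, Z ω ^ (q / p) ∂P ≤
        ENNReal.ofReal (K * Real.sqrt q) ^ q * (Mn P X p c f₀ + Mn P Y p c f₁) ^ (q / p) := by
  have hp0 : 0 < p := by linarith
  have hp1 : 1 ≤ p := by linarith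
  have hδR : (0 : ℝ) < (δ : ℝ) := by exact_mod_cast hδ
  set D : ℝ := (max C0 C1 + 1 : ℝ≥0) * ((δ : ℝ) ^ (p / 2))⁻¹ with hD
  have hD0 : 0 < D := by positivity
  refine ⟨16 * D ^ (1 / p), by positivity, ?_⟩
  intro Ω _ P _ X Y hX hY s hs n c hc hd0 hd1 f₀ f₁ hf0 hf1 hff0 hff1 μ _ hμ hμ2
  obtain ⟨F, hF⟩ : ∃ F : ℕ → Ω → ℝ × (Fin (n + 1) → ℝ) → ℝ≥0∞, F = fun J ω w =>
    ‖FJ (y0 s) c hc f₀ J (fun i => X i ω) w + FJ (y1 s) c hc f₁ J (fun i => Y i ω) w‖ₑ ^ p := ⟨_, rfl⟩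
  have m0 := fun J => FJ_meas hX.meas (pair0 s) c hc hf0 J
  have m1 := fun J => FJ_meas hY.meas (pair1 s) c hc hf1 J
  have hFm : ∀ J, Measurable (Function.uncurry (F J)) := by
    intro J
    rw [hF]
    exact ((m0 J).add (m1 J)).enorm.pow_const p
  have hFω : ∀ J ω, Measurable (F J ω) := fun J ω =>
    (hFm J).comp (measurable_const.prodMk measurable_id)
  obtain ⟨ZJ, hZJ⟩ : ∃ ZJ : ℕ → Ω → ℝ≥0∞, ZJ = fun J ω => ∫⁻ w, F J ω w ∂(μ.prod volume) := ⟨_, rfl⟩
  have hZm : ∀ J, Measurable (ZJ J) := by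
    intro J
    rw [hZJ]
    exact (hFm J).lintegral_prod_right'
  refine ⟨fun ω => liminf (fun J => ZJ J ω) atTop, ?_, ?_, ?_⟩
  · exact Measurable.liminf hZm
  · intro ω
    have h1 : ∫⁻ t, (∫⁻ x, ‖Wo (y0 s) c (fun i => X i ω) f₀ t x +
        Wo (y1 s) c (fun i => Y i ω) f₁ t x‖ₑ ^ p) ∂μ ≤
        ∫⁻ t, (∫⁻ x, liminf (fun J => F J ω (t, x)) atTop) ∂μ := by
      apply lintegral_mono_ae
      filter_upwards [hμ2] with t ht
      apply lintegral_mono
      intro x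
      have h2 := Wo_lim hs (pair0 s) c hc (fun i => hX.bd i ω) hf0 hff0 ht.1 ht.2 x
      have h3 := Wo_lim hs (pair1 s) c hc (fun i => hY.bd i ω) hf1 hff1 ht.1 ht.2 x
      have h4 : Tendsto (fun J => F J ω (t, x)) atTop
          (𝓝 (‖Wo (y0 s) c (fun i => X i ω) f₀ t x + Wo (y1 s) c (fun i => Y i ω) f₁ t x‖ₑ ^ p)) := by
        rw [hF]
        exact (ENNReal.continuous_rpow_const.tendsto _).comp (h2.add h3).enorm
      exact h4.liminf_eq.ge
    refine h1.trans ?_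
    have h5 : Measurable fun w : ℝ × (Fin (n + 1) → ℝ) => liminf (fun J => F J ω w) atTop :=
      Measurable.liminf fun J => hFω J ω
    rw [← lintegral_prod (fun w => liminf (fun J => F J ω w) atTop) h5.aemeasurable]
    rw [hZJ]
    exact lintegral_liminf_le fun J => hFω J ω
  · intro q hq
    have hq0 : 0 < q := by linarith
    have hr0 : 0 < q / p := by positivity
    have hr1 : 1 ≤ q / p := by rwa [one_le_div hp0]
    have h1 : ∀ ω, (liminf (fun J => ZJ J ω) atTop) ^ (q / p) =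
        liminf (fun J => ZJ J ω ^ (q / p)) atTop := by
      intro ω
      have := (ENNReal.orderIsoRpow (q / p) hr0).liminf_apply (u := fun J => ZJ J ω) (f := atTop)
      exact this
    simp only [h1]
    refine (lintegral_liminf_le fun J => (hZm J).pow_const _).trans ?_
    set M : ℝ≥0∞ := Mn P X p c f₀ + Mn P Y p c f₁ with hM
    have hall : ∀ J, ∫⁻ ω, ZJ J ω ^ (q / p) ∂P ≤
        ENNReal.ofReal (16 * D ^ (1 / p) * Real.sqrt q) ^ q * M ^ (q / p) := by
      intro J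
      obtain ⟨A, hA⟩ : ∃ A : Ω → ℝ≥0∞, A = fun ω =>
        ∫⁻ w, ‖FJ (y0 s) c hc f₀ J (fun i => X i ω) w‖ₑ ^ p ∂(μ.prod volume) := ⟨_, rfl⟩
      obtain ⟨B, hB⟩ : ∃ B : Ω → ℝ≥0∞, B = fun ω =>
        ∫⁻ w, ‖FJ (y1 s) c hc f₁ J (fun i => Y i ω) w‖ₑ ^ p ∂(μ.prod volume) := ⟨_, rfl⟩
      have hAm : Measurable A := by
        rw [hA]
        exact ((m0 J).enorm.pow_const p).lintegral_prod_right'
      have g1 : ∀ ω, ZJ J ω ≤ 2 ^ (p - 1) * (A ω + B ω) := by
        intro ω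
        have g2 : Measurable fun w => ‖FJ (y0 s) c hc f₀ J (fun i => X i ω) w‖ₑ ^ p :=
          ((m0 J).comp (measurable_const.prodMk measurable_id)).enorm.pow_const p
        rw [hZJ, hA, hB]
        simp only
        rw [← lintegral_add_left g2, ← lintegral_const_mul' _ _
          (ENNReal.rpow_ne_top_of_nonneg (by linarith) (by norm_num))]
        apply lintegral_mono
        intro w
        rw [hF]
        exact (ENNReal.rpow_le_rpow (enorm_add_le _ _) hp0.le).trans (two_rpow _ _ p hp1)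
      have g3 : ∀ ω, ZJ J ω ^ (q / p) ≤ 2 ^ (q - 1) * (A ω ^ (q / p) + B ω ^ (q / p)) := by
        intro ω
        calc ZJ J ω ^ (q / p) ≤ (2 ^ (p - 1) * (A ω + B ω)) ^ (q / p) :=
              ENNReal.rpow_le_rpow (g1 ω) hr0.le
          _ = (2 ^ (p - 1)) ^ (q / p) * (A ω + B ω) ^ (q / p) :=
              ENNReal.mul_rpow_of_nonneg _ _ hr0.le
          _ ≤ (2 ^ (p - 1)) ^ (q / p) * (2 ^ (q / p - 1) * (A ω ^ (q / p) + B ω ^ (q / p))) :=
              mul_le_mul' le_rfl (two_rpow _ _ _ hr1)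
          _ = _ := by
              rw [← mul_assoc, ← ENNReal.rpow_mul, ← ENNReal.rpow_add _ _ (by norm_num) (by norm_num)]
              congr 2
              field_simp
              ring
      have b0 := mom P hδ hX (pair0 s) hp hq hd0 hf0 hff0 μ hμ hμ2 J
      have b1 := mom P hδ hY (pair1 s) hp hq hd1 hf1 hff1 μ hμ hμ2 J
      have hcoef : ∀ (C' : ℝ≥0) (M' : ℝ≥0∞), C' ≤ max C0 C1 → M' ≤ M →
          ((C' : ℝ≥0∞) * ((δ : ℝ≥0∞) ^ (p / 2))⁻¹ * M') ^ (q / p) ≤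
            (ENNReal.ofReal D * M) ^ (q / p) := by
        intro C' M' hC' hM'
        apply ENNReal.rpow_le_rpow _ hr0.le
        refine mul_le_mul' ?_ hM'
        rw [hD, ENNReal.ofReal_mul (by positivity), ENNReal.ofReal_inv_of_pos (by positivity),
          ← ENNReal.ofReal_rpow_of_pos hδR, ENNReal.ofReal_coe_nnreal, ENNReal.ofReal_coe_nnreal]
        gcongr
        exact hC'.trans (le_add_of_nonneg_right zero_le_one)
      calc ∫⁻ ω, ZJ J ω ^ (q / p) ∂P ≤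
          ∫⁻ ω, 2 ^ (q - 1) * (A ω ^ (q / p) + B ω ^ (q / p)) ∂P := lintegral_mono g3
        _ = 2 ^ (q - 1) * ((∫⁻ ω, A ω ^ (q / p) ∂P) + ∫⁻ ω, B ω ^ (q / p) ∂P) := by
            rw [lintegral_const_mul' _ _ (ENNReal.rpow_ne_top_of_nonneg (by linarith) (by norm_num)),
              lintegral_add_left (hAm.pow_const _)]
        _ ≤ 2 ^ (q - 1) * (ENNReal.ofReal (8 * Real.sqrt q) ^ q * (ENNReal.ofReal D * M) ^ (q / p) +
            ENNReal.ofReal (8 * Real.sqrt q) ^ q * (ENNReal.ofReal D * M) ^ (q / p)) := by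
            refine mul_le_mul' le_rfl (add_le_add ?_ ?_)
            · rw [hA]
              exact b0.trans (mul_le_mul' le_rfl (hcoef C0 _ (le_max_left _ _) le_self_add))
            · rw [hB]
              exact b1.trans (mul_le_mul' le_rfl (hcoef C1 _ (le_max_right _ _) le_add_self))
        _ = 2 ^ q * (ENNReal.ofReal (8 * Real.sqrt q) ^ q * (ENNReal.ofReal D * M) ^ (q / p)) := by
            rw [← two_mul, ← mul_assoc]
            congr 1
            conv_lhs => rw [← ENNReal.rpow_one 2, ← ENNReal.rpow_mul, one_mul]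
            rw [← ENNReal.rpow_add _ _ (by norm_num) (by norm_num)]
            congr 1
            ring
        _ = _ := by
            have e1 : (2 : ℝ≥0∞) ^ q = ENNReal.ofReal 2 ^ q := by simp
            have e2 : (ENNReal.ofReal D * M) ^ (q / p) =
                ENNReal.ofReal (D ^ (1 / p)) ^ q * M ^ (q / p) := by
              rw [ENNReal.mul_rpow_of_nonneg _ _ hr0.le, ← ENNReal.ofReal_rpow_of_pos hD0,
                ← ENNReal.rpow_mul]
              congr 2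
              field_simp
            rw [e1, e2, ← mul_assoc, ← mul_assoc, ← ENNReal.mul_rpow_of_nonneg _ _ hq0.le,
              ← ENNReal.mul_rpow_of_nonneg _ _ hq0.le, ← ENNReal.ofReal_mul (by norm_num),
              ← ENNReal.ofReal_mul (by positivity)]
            congr 3
            ring
    calc liminf (fun J => ∫⁻ ω, ZJ J ω ^ (q / p) ∂P) atTop ≤
        liminf (fun _ : ℕ => ENNReal.ofReal (16 * D ^ (1 / p) * Real.sqrt q) ^ q * M ^ (q / p))
          atTop := liminf_le_liminf (Eventually.of_forall hall)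
      _ = _ := liminf_const _

end Pool.Agent.Q263.WR
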