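import Pool.Agent.Q263.WR.H
set_option autoImplicit false

/-! The multiplier is bounded and measurable; the estimate in the form in which it is used. -/

namespace Pool.Agent.Q263.WR

open MeasureTheory Set Complex Filter Topology ProbabilityTheory
open scoped ENNReal NNReal FourierTransform
open Pool.Agent.Y183.LS (ec ec_norm ec_enorm ec_add ec_cont ec_zero ec_sum dt dt_add dt_comm dt_cont
  dt_cont2 iz dt_add_left convex_sum)
open Pool.Agent.Q89.WS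

variable {d : ℕ}

lemma mu_bd (c : (Fin d → ℤ) → ℕ) {u : ℕ → ℂ} (hu : ∀ i, ‖u i‖ ≤ 1) (ξ : Fin d → ℝ) :
    ‖mu c u ξ‖ ≤ 1 := by
  rw [mu_act]
  refine (norm_sum_le _ _).trans (le_trans ?_ (BB_le (act ξ) ξ))
  apply Finset.sum_le_sum
  intro k _
  rw [norm_mul, Complex.norm_real, Real.norm_of_nonneg (BB_nonneg k ξ)]
  have := hu (c k)
  have := BB_nonneg k ξ
  nlinarith [norm_nonneg (u (c k))]

lemma mu_meas (c : (Fin d → ℤ) → ℕ) (hc : ∀ i, (c ⁻¹' {i}).Finite) (u : ℕ → ℂ) :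
    Measurable (mu c u) := by
  refine measurable_of_tendsto_metrizable (f := fun (J : ℕ) (ξ : Fin d → ℝ) =>
    ∑ i ∈ Finset.range J, u i * (Ps (bk c hc i) ξ : ℂ)) ?_ ?_
  · intro J
    exact Finset.measurable_sum _ fun i _ =>
      (Complex.measurable_ofReal.comp (Ps_cont _).measurable).const_mul _
  · rw [tendsto_pi_nhds]
    intro ξ
    refine Tendsto.congr' ?_ tendsto_const_nhds
    filter_upwards [part_ev c hc u ξ] with J hJ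
    rw [hJ]

lemma Wo_int {s : ℝ} (hs : 0 ≤ s) {y z : ℝ → ℂ → ℂ} (hy : Pair s y z) {n : ℕ}
    (c : (Fin (n + 1) → ℤ) → ℕ) (hc : ∀ i, (c ⁻¹' {i}).Finite) {u : ℕ → ℂ}
    (hu : ∀ i, ‖u i‖ ≤ 1) {f : (Fin (n + 1) → ℝ) → ℂ} (hf : Integrable f) (hff : Integrable (ft f))
    {t : ℝ} (ht1 : 1 ≤ t) (ht2 : t ≤ 2) (x : Fin (n + 1) → ℝ) :
    Integrable fun ξ => ec (dt x ξ) * (y t (nq ξ) * (mu c u ξ * ft f ξ)) := by
  obtain ⟨C, hC, h⟩ := y_bd hy n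
  refine (hff.norm.const_mul C).mono' ?_ ?_
  · have my : Measurable fun ξ : Fin (n + 1) → ℝ => y t (nq ξ) :=
      y_nq hy measurable_const measurable_id
    have me : Measurable fun ξ : Fin (n + 1) → ℝ => ec (dt x ξ) :=
      ecdt_meas measurable_const measurable_id
    exact (me.mul (my.mul ((mu_meas c hc u).mul (ft_cont hf).measurable))).aestronglyMeasurable
  · filter_upwards with ξ
    rw [norm_mul, ec_norm, one_mul, norm_mul, norm_mul]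
    have h1 := h t ht1 ht2 ξ
    have h2 := mu_bd c hu ξ
    have h3 := Jr_le_one hs ξ
    calc ‖y t (nq ξ)‖ * (‖mu c u ξ‖ * ‖ft f ξ‖) ≤ (C * 1) * (1 * ‖ft f ξ‖) := by
          gcongr
          exact h1.trans (by gcongr)
      _ = _ := by ring

/-- the solution -/
noncomputable def sol (s : ℝ) (c : (Fin d → ℤ) → ℕ) (u v : ℕ → ℂ) (f₀ f₁ : (Fin d → ℝ) → ℂ) (t : ℝ)
    (x : Fin d → ℝ) : ℂ :=
  ∫ ξ, ec (dt x ξ) * (((Real.cos (2 * Real.pi * t * nrm ξ) * Jr ξ ^ (-s / 2) : ℝ) : ℂ) *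
      (mu c u ξ * ft f₀ ξ) +
    ((Real.sin (2 * Real.pi * t * nrm ξ) / (2 * Real.pi * nrm ξ) * Jr ξ ^ ((1 - s) / 2) : ℝ) : ℂ) *
      (mu c v ξ * ft f₁ ξ))

lemma sol_eq {s : ℝ} (hs : 0 ≤ s) {n : ℕ} (c : (Fin (n + 1) → ℤ) → ℕ)
    (hc : ∀ i, (c ⁻¹' {i}).Finite) {u v : ℕ → ℂ} (hu : ∀ i, ‖u i‖ ≤ 1) (hv : ∀ i, ‖v i‖ ≤ 1)
    {f₀ f₁ : (Fin (n + 1) → ℝ) → ℂ} (h0 : Integrable f₀) (h1 : Integrable f₁)
    (i0 : Integrable (ft f₀)) (i1 : Integrable (ft f₁)) {t : ℝ} (ht1 : 1 ≤ t)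
    (ht2 : t ≤ 2) (x : Fin (n + 1) → ℝ) :
    sol s c u v f₀ f₁ t x = Wo (y0 s) c u f₀ t x + Wo (y1 s) c v f₁ t x := by
  unfold Wo sol
  rw [← integral_add (Wo_int hs (pair0 s) c hc hu h0 i0 ht1 ht2 x)
    (Wo_int hs (pair1 s) c hc hv h1 i1 ht1 ht2 x)]
  apply integral_congr_ae
  have hae : ∀ᵐ ξ : Fin (n + 1) → ℝ, ξ ≠ 0 := by
    rw [ae_iff]
    simp
  filter_upwards [hae] with ξ hξ
  rw [y0_real, y1_real s t hξ]
  ring

/-- **the estimate for the random solution** -/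
theorem main (p : ℝ) (hp : 2 ≤ p) (δ : ℝ≥0) (hδ : 0 < δ) (C0 C1 : ℝ≥0) : ∃ (C : ℝ≥0) (κ : ℝ),
    0 < κ ∧ ∀ {Ω : Type} [MeasurableSpace Ω] (P : Measure Ω) [IsProbabilityMeasure P]
    (X Y : ℕ → Ω → ℂ), Rad P δ X → Rad P δ Y → ∀ {s : ℝ}, 0 ≤ s → ∀ {n : ℕ}
    (c : (Fin (n + 1) → ℤ) → ℕ)
    (hc : ∀ i, (c ⁻¹' {i}).Finite), Det p C0 (y0 s) n c hc → Det p C1 (y1 s) n c hc →
    ∀ (f₀ f₁ : (Fin (n + 1) → ℝ) → ℂ), Integrable f₀ → Integrable f₁ → Integrable (ft f₀) →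
    Integrable (ft f₁) → ∀ (μ : Measure ℝ) [IsProbabilityMeasure μ], μ (Icc 1 2) = 1 →
    (∫⁻ ω, (∫⁻ t, (∫⁻ x, ‖sol s c (fun i => X i ω) (fun i => Y i ω) f₀ f₁ t x‖ₑ ^ p) ∂μ) ∂P ≤
      C * (Mn P X p c f₀ + Mn P Y p c f₁)) ∧
    ∀ l : ℝ, 0 ≤ l → P {ω | ENNReal.ofReal l ^ p * (Mn P X p c f₀ + Mn P Y p c f₁) <
        ∫⁻ t, (∫⁻ x, ‖sol s c (fun i => X i ω) (fun i => Y i ω) f₀ f₁ t x‖ₑ ^ p) ∂μ} ≤
      C * ENNReal.ofReal (Real.exp (-(κ * l ^ 2))) := by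
  have hp0 : 0 < p := by linarith
  obtain ⟨K, hK, h⟩ := fin_est p hp δ hδ C0 C1
  refine ⟨max ((K * Real.sqrt p) ^ p).toNNReal (Real.exp p).toNNReal,
    1 / (Real.exp 1 * K) ^ 2, by positivity, ?_⟩
  intro Ω _ P _ X Y hX hY s hs n c hc hd0 hd1 f₀ f₁ hf0 hf1 hff0 hff1 μ _ hμ
  have hae : ∀ᵐ t ∂μ, 1 ≤ t ∧ t ≤ 2 := by
    rw [← prob_compl_eq_zero_iff measurableSet_Icc] at hμ
    rw [ae_iff]
    exact hμ
  obtain ⟨Z, hZm, hZ, hq⟩ := h P X Y hX hY hs c hc hd0 hd1 f₀ f₁ hf0 hf1 hff0 hff1 μ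
    (le_of_eq measure_univ) hae
  have hle : ∀ ω, ∫⁻ t, (∫⁻ x, ‖sol s c (fun i => X i ω) (fun i => Y i ω) f₀ f₁ t x‖ₑ ^ p) ∂μ ≤
      Z ω := by
    intro ω
    refine le_trans (le_of_eq ?_) (hZ ω)
    apply lintegral_congr_ae
    filter_upwards [hae] with t ht
    congr 1
    ext x
    rw [sol_eq hs c hc (fun i => hX.bd i ω) (fun i => hY.bd i ω) hf0 hf1 hff0 hff1 ht.1 ht.2 x]
  constructor
  · have h1 := hq p le_rfl
    rw [div_self hp0.ne'] at h1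
    simp only [ENNReal.rpow_one] at h1
    calc _ ≤ ∫⁻ ω, Z ω ∂P := lintegral_mono hle
      _ ≤ ENNReal.ofReal (K * Real.sqrt p) ^ p * (Mn P X p c f₀ + Mn P Y p c f₁) := h1
      _ ≤ _ := by
          gcongr
          rw [ENNReal.ofReal_rpow_of_nonneg (by positivity) hp0.le]
          exact ENNReal.coe_le_coe.mpr (le_max_left _ _)
  · intro l hl
    have h1 := tail P Z hZm p K (Mn P X p c f₀ + Mn P Y p c f₁) (by linarith) hK hq l hl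
    calc _ ≤ P {ω | ENNReal.ofReal l ^ p * (Mn P X p c f₀ + Mn P Y p c f₁) < Z ω} := by
          apply measure_mono
          intro ω hω
          exact lt_of_lt_of_le hω (hle ω)
      _ ≤ ENNReal.ofReal (Real.exp (p - l ^ 2 / (Real.exp 1 * K) ^ 2)) := h1
      _ = ENNReal.ofReal (Real.exp p) *
          ENNReal.ofReal (Real.exp (-(1 / (Real.exp 1 * K) ^ 2 * l ^ 2))) := by
          rw [← ENNReal.ofReal_mul (Real.exp_pos _).le, ← Real.exp_add]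
          congr 2
          ring
      _ ≤ _ := by
          gcongr
          exact ENNReal.coe_le_coe.mpr (le_max_right _ _)

end Pool.Agent.Q263.WR
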